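import Pool.Agent.Y97.Upper

/-!
# The degree of a product
-/

open CategoryTheory AlgebraicGeometry Finset

universe u v

namespace Pool.Agent.Y97

open Pool.Agent.H914 Pool.Agent.H914.VarClass Pool.Agent.H914.VarClass.Obj
  Pool.Agent.H914.WeilCohomology Pool.Agent.H281R3.HT Pool.Agent.W552 Pool.Agent.W539.Ker

variable {k : Type u} [Field k] {𝒱 : VarClass k} {ops : CycleOps 𝒱}
  {W : WeilCohomology.{u, v} ops} {X Y : 𝒱.Obj} {D : X.Cycles} {f : Module.End W.K (W.H X)}
  {E : Y.Cycles} {g : Module.End W.K (W.H Y)}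

lemma prim_one (F : Fr W X D f) : Primitive W X D 0 X.V.fundCycle := by
  refine ⟨X.V.fundCycle_mem, ?_⟩
  have h2 := W.cl_mem (divPow_mem (ops := ops) F.hD (X.dim - 2 * 0 + 1) X.V.fundCycle_mem)
  rw [W.gr_eq_bot X _ (by omega)] at h2
  exact (Submodule.mem_bot _).1 h2

/-- The form on the class of the variety. -/
lemma bf_one (F : Fr W X D f) : bf W X D f 1 1 =
    ((((X.dim.factorial : ℚ)⁻¹ * X.V.degCycle (divPow ops D X.dim X.V.fundCycle)) : ℚ) :
      W.K) := by
  have h1 := prim_one F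
  have h2 : pairing ops X D 0 X.V.fundCycle X.V.fundCycle =
      X.V.degCycle (divPow ops D X.dim X.V.fundCycle) := by
    have h3 : ((pairing ops X D 0 X.V.fundCycle X.V.fundCycle : ℚ) : W.K) =
        ((X.V.degCycle (divPow ops D X.dim X.V.fundCycle) : ℚ) : W.K) := by
      have h4 := divPow_mem (ops := ops) F.hD X.dim X.V.fundCycle_mem
      rw [zero_add] at h4
      rw [pairing_cast F.hD (by omega) X.V.fundCycle_mem X.V.fundCycle_mem, ← W.tr_cl h4,
        cl_divPow, W.cl_fund, one_mul, pow_zero, one_mul, mul_zero, Nat.sub_zero]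
    exact_mod_cast h3
  have h3 := bf_same F (by omega) h1 h1 (j := 0) (by omega)
  rw [pow_zero, Module.End.one_apply, W.cl_fund, h2, mul_zero, Nat.sub_zero, Nat.sub_zero,
    Nat.factorial_zero, Nat.cast_one, one_mul] at h3
  exact h3

lemma pos_iff (F : Fr W X D f) : 0 < X.V.degCycle (divPow ops D X.dim X.V.fundCycle) ↔
    ∃ q : ℚ, 0 < q ∧ bf W X D f 1 1 = (q : W.K) := by
  have hf : (0 : ℚ) < (X.dim.factorial : ℚ)⁻¹ := by positivity
  constructor
  · intro h
    exact ⟨_, mul_pos hf h, bf_one F⟩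
  · rintro ⟨q, hq, hq'⟩
    rw [bf_one F] at hq'
    have h1 : (X.dim.factorial : ℚ)⁻¹ * X.V.degCycle (divPow ops D X.dim X.V.fundCycle) = q := by
      exact_mod_cast hq'
    rw [← h1] at hq
    exact (mul_pos_iff_of_pos_left hf).1 hq

lemma pos_prod (F : Fr W X D f) (G : Fr W Y E g)
    (h : 0 < X.V.degCycle (divPow ops D X.dim X.V.fundCycle))
    (h' : 0 < Y.V.degCycle (divPow ops E Y.dim Y.V.fundCycle)) :
    0 < (X.prod Y).V.degCycle (divPow ops (ops.pull (fst X Y) D + ops.pull (snd X Y) E)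
      (X.prod Y).dim (X.prod Y).V.fundCycle) := by
  obtain ⟨q, hq, h1⟩ := (pos_iff F).1 h
  obtain ⟨q', hq', h2⟩ := (pos_iff G).1 h'
  refine (pos_iff (F.prod G)).2 ⟨q * q', mul_pos hq hq', ?_⟩
  have h3 := F.bf_ext G 1 1 1 1
  rw [H281R3.HT.ext, map_one, map_one, mul_one, h1, h2] at h3
  rw [Rat.cast_mul]
  exact h3

lemma pos_power {P : Polarized 𝒱} {f : Module.End W.K (W.H P.X)} (F : Fr W P.X P.D f)
    (S : Sy W P.X P.D f) (h : 0 < P.X.V.degCycle (divPow ops P.D P.X.dim P.X.V.fundCycle))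
    (r : ℕ) : 0 < (power ops P r).X.V.degCycle
      (divPow ops (power ops P r).D (power ops P r).X.dim (power ops P r).X.V.fundCycle) := by
  induction r with
  | zero => exact h
  | succ r ih =>
    obtain ⟨g, G, -⟩ := frame_power F S r
    exact pos_prod F G h ih

end Pool.Agent.Y97
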