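import Pool.Agent.Y97.Red
import Pool.Agent.W539.Ker.Lef
import Pool.Agent.W539.Ker.Fam

/-!
# The operator of rank two attached to a class of the wrong sign
-/

open CategoryTheory AlgebraicGeometry Finset

universe u v

namespace Pool.Agent.Y97

open Pool.Agent.H914 Pool.Agent.H914.VarClass Pool.Agent.H914.VarClass.Obj
  Pool.Agent.H914.WeilCohomology Pool.Agent.H281R3.HT Pool.Agent.W552 Pool.Agent.W539.Ker

variable {k : Type u} [Field k] {𝒱 : VarClass k} {ops : CycleOps 𝒱}
  {W : WeilCohomology.{u, v} ops} {X Y : 𝒱.Obj} {D : X.Cycles} {f : Module.End W.K (W.H X)}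

/-- Operators of rank one given by algebraic classes. -/
lemma rankOne_aop {x y : W.H X} (hx : AS W X x) (hy : AS W X y) :
    AOp W X X ((bil W X x).smulRight y) := by
  refine ⟨ext W x y, hx.ext hy, ?_⟩
  apply LinearMap.ext
  intro z
  have h1 : AS W (X.prod X) (W.map (snd X X) y) := hy.map _
  rw [corr_apply, H281R3.HT.ext, mul_assoc, h1.comm, ← mul_assoc, ← map_mul (W.map (fst X X)),
    push_snd, LinearMap.smulRight_apply, bil_apply]

/-- The operator `z ↦ ⟨z, α⟩ β + ⟨z, β⟩ α`. -/
noncomputable def two (b : W.H X →ₗ[W.K] W.H X →ₗ[W.K] W.K) (α β : W.H X) :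
    Module.End W.K (W.H X) :=
  (b.flip α).smulRight β + (b.flip β).smulRight α

lemma two_apply (b : W.H X →ₗ[W.K] W.H X →ₗ[W.K] W.K) (α β z : W.H X) :
    two b α β z = b z α • β + b z β • α := rfl

section Two

variable (F : Fr W X D f)

include F

/-- The weight operator is self-adjoint. -/
lemma fr_wt_self (a b : W.H X) :
    bf W X D f (wt (W.isInternal X) X.dim a) b = bf W X D f a (wt (W.isInternal X) X.dim b) := by
  refine gr_induction (W.isInternal X) (p := fun a => bf W X D f (wt (W.isInternal X) X.dim a) b =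
    bf W X D f a (wt (W.isInternal X) X.dim b)) ?_ ?_ a
  swap
  · intro a a' ha ha'
    rw [map_add, map_add, LinearMap.add_apply, ha, ha', map_add, LinearMap.add_apply]
  intro i a ha
  refine gr_induction (W.isInternal X) (p := fun b => bf W X D f (wt (W.isInternal X) X.dim a) b =
    bf W X D f a (wt (W.isInternal X) X.dim b)) ?_ ?_ b
  swap
  · intro b b' hb hb'
    rw [map_add, hb, hb', map_add, map_add]
  intro j b hb
  rw [Fr.wt_gr ha, Fr.wt_gr hb, map_smul, LinearMap.smul_apply, map_smul]
  by_cases hij : i = j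
  · rw [hij]
  · rw [F.bf_deg ha hb hij, smul_zero, smul_zero]

lemma two_aop {α β : W.H X} (hα : AS W X α) (hβ : AS W X β) :
    AOp W X X (two (bf W X D f) α β) := by
  have key : ∀ {α β : W.H X}, AS W X α → AS W X β →
      AOp W X X (((bf W X D f).flip α).smulRight β) := by
    intro α β hα hβ
    have h1 := rankOne_aop (F.st_AS hα) hβ
    have h2 : (bil W X (st W X D f α)).smulRight β = ((bf W X D f).flip α).smulRight β := by
      apply LinearMap.ext
      intro z
      rw [LinearMap.smulRight_apply, LinearMap.smulRight_apply, bil_apply, LinearMap.flip_apply,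
        bf_apply, (F.st_AS hα).comm]
    rwa [h2] at h1
  exact (key hα hβ).add (key hβ hα)

/-- **The reduction given by a class of the wrong sign.** -/
theorem exists_red (S : Sy W X D f) {m : ℤ} {α β : W.H X} (hα : AW W X m α) (hβ : AW W X m β)
    {a b : ℚ} (ha : a < 0) (hb : 0 < b) (haa : bf W X D f α α = (a : W.K))
    (hbb : bf W X D f β β = (b : W.K)) (hab : bf W X D f α β = 0) :
    ∃ q, Red W X D f q ∧
      Module.finrank W.K (LinearMap.range q) + 2 ≤ Module.finrank W.K (W.H X) := by
  set θ := two (bf W X D f) α β with hθ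
  have hba : bf W X D f β α = 0 := by rw [bf_symm_AS S β hα.1]; exact hab
  have hc : 0 < -(a * b) := by nlinarith
  have hθα : θ α = (a : W.K) • β := by rw [hθ, two_apply, haa, hab, zero_smul, add_zero]
  have hθβ : θ β = (b : W.K) • α := by rw [hθ, two_apply, hba, hbb, zero_smul, zero_add]
  have h3 : θ * θ * θ = -(((-(a * b) : ℚ) : W.K) • θ) := by
    apply LinearMap.ext
    intro z
    rw [Module.End.mul_apply, Module.End.mul_apply, LinearMap.neg_apply, LinearMap.smul_apply]
    have e1 : θ z = bf W X D f z α • β + bf W X D f z β • α := two_apply _ _ _ _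
    rw [e1, map_add, map_smul, map_smul, hθα, hθβ, map_add, map_smul, map_smul, map_smul,
      map_smul, hθα, hθβ]
    push_cast
    module
  have hsa : ∀ x y, bf W X D f (θ x) y = bf W X D f x (θ y) := by
    intro x y
    rw [hθ, two_apply, two_apply, map_add, map_add, LinearMap.add_apply, map_smul, map_smul,
      map_smul, map_smul, LinearMap.smul_apply, LinearMap.smul_apply, ← bf_symm_AS S y hα.1,
      ← bf_symm_AS S y hβ.1]
    simp only [smul_eq_mul]
    ring
  have hw : Commute θ (wt (W.isInternal X) X.dim) := by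
    apply LinearMap.ext
    intro z
    rw [Module.End.mul_apply, Module.End.mul_apply, hθ, two_apply, two_apply, map_add, map_smul,
      map_smul, hα.2, hβ.2, fr_wt_self F, fr_wt_self F, hα.2, hβ.2, map_smul, map_smul]
    simp only [smul_eq_mul]
    module
  refine ⟨_, Red.step Red.one hc (two_aop F hα.1 hβ.1) hsa hw h3 (Commute.one_right _), ?_⟩
  rw [mul_one]
  set q : Module.End W.K (W.H X) := 1 + (((-(a * b))⁻¹ : ℚ) : W.K) • (θ * θ) with hq
  have hab0 : a * b ≠ 0 := by nlinarith
  have hqα : q α = 0 := by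
    rw [hq, LinearMap.add_apply, Module.End.one_apply, LinearMap.smul_apply,
      Module.End.mul_apply, hθα, map_smul, hθβ, smul_smul, smul_smul, ← Rat.cast_mul,
      ← Rat.cast_mul]
    have : (-(a * b))⁻¹ * (a * b) = -1 := by
      rw [inv_neg, neg_mul, inv_mul_cancel₀ hab0]
    rw [mul_assoc, this]
    simp
  have hqβ : q β = 0 := by
    rw [hq, LinearMap.add_apply, Module.End.one_apply, LinearMap.smul_apply,
      Module.End.mul_apply, hθβ, map_smul, hθα, smul_smul, smul_smul, ← Rat.cast_mul,
      ← Rat.cast_mul]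
    have : (-(a * b))⁻¹ * (b * a) = -1 := by
      rw [mul_comm b a, inv_neg, neg_mul, inv_mul_cancel₀ hab0]
    rw [mul_assoc, this]
    simp
  have hli : LinearIndependent W.K ![(⟨α, hqα⟩ : LinearMap.ker q), (⟨β, hqβ⟩ : LinearMap.ker q)] := by
    rw [LinearIndependent.pair_iff]
    intro s t hst
    have h4 : s • α + t • β = 0 := congrArg Subtype.val hst
    have h5 := congrArg (fun x => bf W X D f x α) h4
    have h6 := congrArg (fun x => bf W X D f x β) h4
    simp only [map_add, map_smul, LinearMap.add_apply, LinearMap.smul_apply, map_zero,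
      LinearMap.zero_apply, haa, hbb, hab, hba, add_zero, zero_add, smul_eq_mul,
      mul_zero] at h5 h6
    have ha' : (a : W.K) ≠ 0 := by exact_mod_cast ha.ne
    have hb' : (b : W.K) ≠ 0 := by exact_mod_cast hb.ne'
    exact ⟨(mul_eq_zero.1 h5).resolve_right ha', (mul_eq_zero.1 h6).resolve_right hb'⟩
  have h4 := hli.fintype_card_le_finrank
  rw [Fintype.card_fin] at h4
  have h5 := LinearMap.finrank_range_add_finrank_ker q
  omega

end Two

end Pool.Agent.Y97
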