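import Mathlib

/-!
# Counting fixed functions of permutations
-/

open Finset

namespace Pool.Agent.Y97

/-- Functions with the same number of elements in each fibre differ by a permutation. -/
lemma exists_perm_of_fiber {n : ℕ} {α : Type*} [DecidableEq α] {f g : Fin n → α}
    (h : ∀ a, (univ.filter fun i => f i = a).card = (univ.filter fun i => g i = a).card) :
    ∃ σ : Equiv.Perm (Fin n), f ∘ σ = g := by
  have e : ∀ a, Nonempty ({i // g i = a} ≃ {i // f i = a}) := by
    intro a
    rw [← Fintype.card_eq, Fintype.card_subtype, Fintype.card_subtype, h]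
  refine ⟨Equiv.ofFiberEquiv (fun a => (e a).some), ?_⟩
  funext i
  exact Equiv.ofFiberEquiv_map _ i

/-- **Counting fixed functions.** -/
theorem sum_fix (n : ℕ) (α : Type*) [Fintype α] [DecidableEq α] :
    ∑ ρ : Equiv.Perm (Fin n), (univ.filter fun x : Fin n → α => x ∘ ρ = x).card ≤
      (n + 1) ^ Fintype.card α * n.factorial := by
  classical
  let _ : Fintype ((Equiv.Perm (Fin n))ᵈᵐᵃ) := Fintype.ofEquiv _ DomMulAct.mk
  have h1 := MulAction.sum_card_fixedBy_eq_card_orbits_mul_card_group
    ((Equiv.Perm (Fin n))ᵈᵐᵃ) (Fin n → α)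
  have h2 : ∑ ρ : Equiv.Perm (Fin n), (univ.filter fun x : Fin n → α => x ∘ ρ = x).card =
      ∑ c : (Equiv.Perm (Fin n))ᵈᵐᵃ, Fintype.card (MulAction.fixedBy (Fin n → α) c) := by
    refine Fintype.sum_equiv DomMulAct.mk _ _ ?_
    intro ρ
    rw [← Fintype.card_subtype]
    apply Fintype.card_congr
    exact Equiv.subtypeEquivRight (fun x => Iff.rfl)
  have h3 : Fintype.card (Quotient (MulAction.orbitRel ((Equiv.Perm (Fin n))ᵈᵐᵃ) (Fin n → α))) ≤
      (n + 1) ^ Fintype.card α := by
    let F : (Fin n → α) → (α → Fin (n + 1)) := fun x a =>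
      ⟨(univ.filter fun i => x i = a).card, by
        have := Finset.card_le_univ (univ.filter fun i => x i = a)
        rw [Fintype.card_fin] at this
        omega⟩
    have hF : Function.Injective
        (fun q : Quotient (MulAction.orbitRel ((Equiv.Perm (Fin n))ᵈᵐᵃ) (Fin n → α)) =>
          F q.out) := by
      intro q q' h
      obtain ⟨σ, hσ⟩ := exists_perm_of_fiber (f := q'.out) (g := q.out) (fun a => by
        have := congrArg Fin.val (congrFun h a)
        exact this.symm)
      rw [← Quotient.out_eq q, ← Quotient.out_eq q']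
      apply Quotient.sound
      change q.out ∈ MulAction.orbit _ q'.out
      exact ⟨DomMulAct.mk σ, hσ⟩
    have h4 := Fintype.card_le_of_injective _ hF
    rwa [Fintype.card_fun, Fintype.card_fin] at h4
  rw [h2, h1]
  have h4 : Fintype.card ((Equiv.Perm (Fin n))ᵈᵐᵃ) = n.factorial := by
    rw [Fintype.card_congr DomMulAct.mk.symm, Fintype.card_perm, Fintype.card_fin]
  rw [h4]
  exact Nat.mul_le_mul_right _ h3

/-- **The sum of the squares of the numbers of fixed functions.** -/
theorem sum_fix_sq (n R : ℕ) :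
    ∑ ρ : Equiv.Perm (Fin n), (univ.filter fun x : Fin n → Fin R => x ∘ ρ = x).card ^ 2 ≤
      (n + 1) ^ (R * R) * n.factorial := by
  classical
  have h1 := sum_fix n (Fin R × Fin R)
  rw [Fintype.card_prod, Fintype.card_fin] at h1
  refine le_trans (le_of_eq ?_) h1
  apply Finset.sum_congr rfl
  intro ρ _
  rw [sq, ← Finset.card_product]
  refine Finset.card_bij (fun p _ i => (p.1 i, p.2 i)) ?_ ?_ ?_
  · rintro ⟨x, y⟩ hxy
    rw [Finset.mem_product, Finset.mem_filter, Finset.mem_filter] at hxy
    rw [Finset.mem_filter]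
    refine ⟨Finset.mem_univ _, funext fun i => ?_⟩
    exact Prod.ext (congrFun hxy.1.2 i) (congrFun hxy.2.2 i)
  · rintro ⟨x, y⟩ _ ⟨x', y'⟩ _ h
    have h1 : x = x' := funext fun i => congrArg Prod.fst (congrFun h i)
    have h2 : y = y' := funext fun i => congrArg Prod.snd (congrFun h i)
    rw [h1, h2]
  · intro z hz
    rw [Finset.mem_filter] at hz
    refine ⟨(fun i => (z i).1, fun i => (z i).2), ?_, rfl⟩
    rw [Finset.mem_product, Finset.mem_filter, Finset.mem_filter]
    exact ⟨⟨Finset.mem_univ _, funext fun i => congrArg Prod.fst (congrFun hz.2 i)⟩,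
      ⟨Finset.mem_univ _, funext fun i => congrArg Prod.snd (congrFun hz.2 i)⟩⟩

end Pool.Agent.Y97
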