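import Pool.Agent.W539.Ker.Defs

/-!
# Signs of the algebraic classes on the powers of a variety: definitions
-/

open CategoryTheory AlgebraicGeometry

universe u v

namespace Pool.Agent.Y97

open Pool.Agent.H914 Pool.Agent.H914.VarClass Pool.Agent.H914.VarClass.Obj
  Pool.Agent.H281R3.HT Pool.Agent.W539.Ker

variable {k : Type u} [Field k] {𝒱 : VarClass k} {ops : CycleOps 𝒱}

/-- The power `X ^ (r + 1) = X × (X × (⋯ × X))`, with the sum of the pull-backs of the divisor. -/
noncomputable def power (ops : CycleOps 𝒱) (P : Polarized 𝒱) : ℕ → Polarized 𝒱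
  | 0 => P
  | r + 1 => P.prod ops (power ops P r)

/-- The divisor `D` on `X` has codimension one and positive top self-intersection, and `X` and `D`
satisfy the hard Lefschetz theorem and the standard conjecture of Lefschetz type. -/
structure Good (W : WeilCohomology.{u, v} ops) (P : Polarized 𝒱) : Prop where
  div : P.X.IsCyc 1 P.D
  deg_pos : 0 < P.X.V.degCycle (divPow ops P.D P.X.dim P.X.V.fundCycle)
  hardLefschetz : HardLefschetz W P.X P.D
  lefschetzB : LefschetzB W P.X P.D

/-- The standard conjecture of Hodge type for `X` and the divisor `D`: for `2 n ≤ d = dim X`, the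
pairing `⟨z, w⟩ = (-1) ^ n deg (z · D ^ (d - 2 n) · w)` is positive definite on the primitive
classes of codimension `n` modulo numerical equivalence. -/
def HodgeNum (W : WeilCohomology.{u, v} ops) (X : 𝒱.Obj) (D : X.Cycles) : Prop :=
  ∀ n, 2 * n ≤ X.dim → ∀ z, Primitive W X D n z →
    (∃ w, X.IsCyc (X.dim - n) w ∧ X.V.degCycle (ops.mul z w) ≠ 0) → 0 < pairing ops X D n z z

/-- The largest number of pairwise orthogonal primitive cycles `z` of codimension `n` on `X` for
which `s * ⟨z, z⟩` is positive: for `s = 1` the number of plus signs, and for `s = -1` the number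
of minus signs, in a diagonal form of the pairing. -/
noncomputable def signs (W : WeilCohomology.{u, v} ops) (X : 𝒱.Obj) (D : X.Cycles) (n : ℕ)
    (s : ℚ) : ℕ :=
  sSup {r | HasFamily W X D n s r}

/-- The sum over the codimensions `n ≤ d / 2` of the differences between the number of plus signs
and the number of minus signs. -/
noncomputable def imbalance (W : WeilCohomology.{u, v} ops) (P : Polarized 𝒱) : ℝ :=
  ∑ n ∈ Finset.range (P.X.dim / 2 + 1),
    |(signs W P.X P.D n 1 : ℝ) - signs W P.X P.D n (-1)|

/-- The number of all signs: the sum over the codimensions `n ≤ d / 2` of the rank of the group of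
primitive classes of codimension `n` modulo numerical equivalence. -/
noncomputable def total (W : WeilCohomology.{u, v} ops) (P : Polarized 𝒱) : ℝ :=
  ∑ n ∈ Finset.range (P.X.dim / 2 + 1),
    ((signs W P.X P.D n 1 : ℝ) + signs W P.X P.D n (-1))

end Pool.Agent.Y97
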