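import Mathlib

/-!
# A lower bound for the rank of a symmetric matrix
-/

open Finset Matrix

namespace Pool.Agent.Y97

/-- **The rank of a symmetric matrix**: the square of the trace is at most the rank times the sum
of the squares of the entries. -/
theorem trace_sq_le {n : Type*} [Fintype n] [DecidableEq n] {A : Matrix n n ℝ}
    (hA : A.IsHermitian) : A.trace ^ 2 ≤ (A.rank : ℝ) * ∑ i, ∑ j, A i j ^ 2 := by
  have h1 : A.trace = ∑ i, hA.eigenvalues i := by
    have := hA.trace_eq_sum_eigenvalues
    simpa using this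
  have h2 : ∑ i, ∑ j, A i j ^ 2 = (A * A).trace := by
    rw [Matrix.trace]
    apply Finset.sum_congr rfl
    intro i _
    rw [Matrix.diag_apply, Matrix.mul_apply]
    apply Finset.sum_congr rfl
    intro j _
    have h3 : A j i = A i j := by
      have := congrFun (congrFun hA i) j
      rw [Matrix.conjTranspose_apply, star_trivial] at this
      exact this
    rw [h3, sq]
  have h3 : (A * A).trace = ∑ i, hA.eigenvalues i ^ 2 := by
    have h4 := hA.spectral_theorem
    conv_lhs => rw [h4]
    rw [← map_mul, Unitary.conjStarAlgAut_apply, Matrix.trace_mul_comm, ← mul_assoc,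
      Unitary.coe_star_mul_self, one_mul, Matrix.diagonal_mul_diagonal, Matrix.trace_diagonal]
    apply Finset.sum_congr rfl
    intro i _
    simp [sq]
  have h5 : (A.rank : ℝ) = ((univ.filter fun i => hA.eigenvalues i ≠ 0).card : ℝ) := by
    rw [hA.rank_eq_card_non_zero_eigs, Fintype.card_subtype]
  rw [h1, h2, h3, h5]
  have h6 : ∑ i, hA.eigenvalues i = ∑ i ∈ univ.filter (fun i => hA.eigenvalues i ≠ 0),
      hA.eigenvalues i := by
    rw [Finset.sum_filter_ne_zero]
  have h7 : ∑ i ∈ univ.filter (fun i => hA.eigenvalues i ≠ 0), hA.eigenvalues i ^ 2 ≤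
      ∑ i, hA.eigenvalues i ^ 2 :=
    Finset.sum_le_sum_of_subset_of_nonneg (Finset.filter_subset _ _)
      (fun i _ _ => sq_nonneg _)
  rw [h6]
  calc (∑ i ∈ univ.filter (fun i => hA.eigenvalues i ≠ 0), hA.eigenvalues i) ^ 2
      ≤ ((univ.filter fun i => hA.eigenvalues i ≠ 0).card : ℝ) *
        ∑ i ∈ univ.filter (fun i => hA.eigenvalues i ≠ 0), hA.eigenvalues i ^ 2 :=
        sq_sum_le_card_mul_sum_sq
    _ ≤ _ := mul_le_mul_of_nonneg_left h7 (Nat.cast_nonneg _)

end Pool.Agent.Y97
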