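import Pool.Agent.Y97.Sg
import Pool.Agent.Y97.Gram

/-!
# The rank of a rational structure is bounded below by Gram matrices
-/

open Finset

universe u v w w'

namespace Pool.Agent.Y97

open Pool.Agent.W552 Pool.Agent.W539.Ker

variable {K : Type u} [Field K] [CharZero K] {V : Type v} [AddCommGroup V] [Module K V]
  {b : V →ₗ[K] V →ₗ[K] K} {p : V → Prop}

/-- The form in terms of a maximal family. -/
lemma MF.expand (h : RQ b p) {ι : Type w} [Fintype ι] {y : ι → V} {s : ι → ℚ}
    (hy : MF b p y s) {x x' : V} (hx : p x) (hx' : p x') {a a' : ι → ℚ}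
    (ha : ∀ i, b x (y i) = (a i : K)) (ha' : ∀ i, b x' (y i) = (a' i : K)) :
    b x x' = ((∑ i, a i * (a' i / s i) : ℚ) : K) := by
  classical
  have key : ∀ {z : V} (_ : p z) {c : ι → ℚ} (_ : ∀ i, b z (y i) = (c i : K)),
      p (z - ∑ i, ((c i / s i : ℚ) : K) • y i) ∧
        ∀ k, b (z - ∑ i, ((c i / s i : ℚ) : K) • y i) (y k) = 0 := by
    intro z hz c hc
    refine ⟨h.sub.sub hz (h.sub.sum _ (fun i _ => h.sub.smul _ (hy.mem i))), fun k => ?_⟩
    rw [map_sub, LinearMap.sub_apply, map_sum, LinearMap.sum_apply, Finset.sum_eq_single k]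
    · rw [map_smul, LinearMap.smul_apply, hy.self, hc, smul_eq_mul, ← Rat.cast_mul,
        div_mul_cancel₀ _ (hy.ne k), sub_self]
    · intro i _ hi
      rw [map_smul, LinearMap.smul_apply, hy.orth i k hi, smul_zero]
    · intro h0; exact absurd (Finset.mem_univ _) h0
  set r := x - ∑ i, ((a i / s i : ℚ) : K) • y i with hr
  set r' := x' - ∑ i, ((a' i / s i : ℚ) : K) • y i with hr'
  obtain ⟨h1, h2⟩ := key hx ha
  obtain ⟨h1', h2'⟩ := key hx' ha'
  rw [← hr] at h1 h2
  rw [← hr'] at h1' h2'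
  have h3 : b r r' = 0 := by
    have e1 := hy.max r h1 h2
    have e2 := hy.max r' h1' h2'
    have e3 := hy.max (r + r') (h.sub.add h1 h1') (fun i => by
      rw [map_add, LinearMap.add_apply, h2, h2', add_zero])
    simp only [map_add, LinearMap.add_apply] at e3
    rw [e1, e2, h.symm h1' h1, zero_add, add_zero] at e3
    have e4 : (2 : K) * b r r' = 0 := by linear_combination e3
    rcases mul_eq_zero.1 e4 with e5 | e5
    · exact absurd e5 two_ne_zero
    · exact e5
  have hx1 : x = r + ∑ i, ((a i / s i : ℚ) : K) • y i := by rw [hr, sub_add_cancel]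
  have hx2 : x' = r' + ∑ i, ((a' i / s i : ℚ) : K) • y i := by rw [hr', sub_add_cancel]
  have e1 : b r x' = 0 := by
    rw [hx2, map_add, h3, zero_add, map_sum]
    apply Finset.sum_eq_zero
    intro i _
    rw [map_smul, h2, smul_zero]
  have e2 : b x x' = b (∑ i, ((a i / s i : ℚ) : K) • y i) x' := by
    conv_lhs => rw [hx1, map_add, LinearMap.add_apply, e1, zero_add]
  rw [e2, map_sum, LinearMap.sum_apply, Rat.cast_sum]
  apply Finset.sum_congr rfl
  intro i _
  rw [map_smul, LinearMap.smul_apply, h.symm (hy.mem i) hx', ha', smul_eq_mul, ← Rat.cast_mul]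
  congr 1
  ring

/-- **A lower bound for the rank.** -/
theorem MF.gram (h : RQ b p) {ι : Type w} [Fintype ι] {y : ι → V} {s : ι → ℚ}
    (hy : MF b p y s) {κ : Type w'} [Fintype κ] {x : κ → V} (hx : ∀ j, p (x j))
    {g : κ → κ → ℚ} (hg : ∀ j k, b (x j) (x k) = (g j k : K)) :
    (∑ j, (g j j : ℝ)) ^ 2 ≤ (Fintype.card ι : ℝ) * ∑ j, ∑ k, (g j k : ℝ) ^ 2 := by
  classical
  choose a ha using fun (j : κ) (i : ι) => h.rat (hx j) (hy.mem i)
  have hexp : ∀ j k, g j k = ∑ i, a j i * (a k i / s i) := by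
    intro j k
    have h1 := hy.expand h (hx j) (hx k) (ha j) (ha k)
    rw [hg] at h1
    exact_mod_cast h1
  have hsymm : ∀ j k, g j k = g k j := by
    intro j k
    have h1 := h.symm (hx j) (hx k)
    rw [hg, hg] at h1
    exact_mod_cast h1
  set A : Matrix κ κ ℝ := Matrix.of fun j k => (g j k : ℝ) with hA
  have hherm : A.IsHermitian := by
    ext j k
    rw [Matrix.conjTranspose_apply, star_trivial, hA, Matrix.of_apply, Matrix.of_apply, hsymm]
  have h1 := trace_sq_le hherm
  have h2 : A.rank ≤ Fintype.card ι := by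
    have h3 : A = (Matrix.of fun (j : κ) (i : ι) => (a j i : ℝ)) *
        (Matrix.of fun (i : ι) (k : κ) => ((a k i / s i : ℚ) : ℝ)) := by
      ext j k
      rw [Matrix.mul_apply, hA, Matrix.of_apply, hexp, Rat.cast_sum]
      apply Finset.sum_congr rfl
      intro i _
      rw [Matrix.of_apply, Matrix.of_apply, Rat.cast_mul]
    rw [h3]
    exact (Matrix.rank_mul_le_left _ _).trans (Matrix.rank_le_card_width _)
  have h3 : A.trace = ∑ j, (g j j : ℝ) := rfl
  rw [h3] at h1
  refine h1.trans (mul_le_mul_of_nonneg_right (by exact_mod_cast h2) ?_)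
  exact Finset.sum_nonneg (fun _ _ => Finset.sum_nonneg (fun _ _ => sq_nonneg _))

end Pool.Agent.Y97
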