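import Pool.Agent.Y97.Base
import Pool.Agent.Y97.Defs

/-!
# The failure of the standard conjecture of Hodge type
-/

open CategoryTheory AlgebraicGeometry Finset

universe u v

namespace Pool.Agent.Y97

open Pool.Agent.H914 Pool.Agent.H914.VarClass Pool.Agent.H914.VarClass.Obj
  Pool.Agent.H914.WeilCohomology Pool.Agent.H281R3.HT Pool.Agent.W552 Pool.Agent.W539.Ker

variable {k : Type u} [Field k] {𝒱 : VarClass k} {ops : CycleOps 𝒱}
  {W : WeilCohomology.{u, v} ops} {X Y : 𝒱.Obj} {D : X.Cycles} {f : Module.End W.K (W.H X)}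

section

variable (F : Fr W X D f)

include F

/-- A negative square. -/
lemma exists_neg {n : ℕ} (hn : 2 * n ≤ X.dim) {z w : X.Cycles} (hz : Primitive W X D n z)
    (hw : X.IsCyc (X.dim - n) w) (hzw : X.V.degCycle (ops.mul z w) ≠ 0)
    (hle : pairing ops X D n z z ≤ 0) :
    ∃ z', Primitive W X D n z' ∧ pairing ops X D n z' z' < 0 := by
  rcases hle.lt_or_eq with h | h0
  · exact ⟨z, hz, h⟩
  set L := LinearMap.mulLeft W.K (W.cl X D) with hL
  obtain ⟨w', hw', hcl⟩ := F.lefschetzA n hn w hw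
  obtain ⟨u, hu, hsum⟩ := (ap_alg F).decomp_low (mulLeft_isHom F.hD) W_hbd n hn (W.cl X w')
    ⟨w', hw', rfl⟩
  obtain ⟨h1, h2⟩ := hu 0 (by omega)
  rw [Nat.sub_zero] at h1 h2
  obtain ⟨z₀, hz₀, hz₀'⟩ := h1
  have hp0 : Primitive W X D n z₀ := ⟨hz₀, by rw [cl_divPow, hz₀']; exact h2⟩
  -- the pairing with the primitive part
  have hdeg : ((X.V.degCycle (ops.mul z w) : ℚ) : W.K) =
      W.tr X (W.cl X z * (L ^ (X.dim - 2 * n)) (W.cl X z₀)) := by
    have h3 : X.IsCyc X.dim (ops.mul z w) := by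
      have := ops.mul_mem hz.1 hw
      rwa [show n + (X.dim - n) = X.dim by omega] at this
    rw [← W.tr_cl h3, W.cl_mul, ← hcl, cl_divPow]
    change W.tr X (W.cl X z * (L ^ (X.dim - 2 * n)) (W.cl X w')) = _
    rw [hsum, map_sum, Finset.mul_sum, map_sum, Finset.sum_eq_single 0]
    · rw [pow_zero, Module.End.one_apply, hz₀']
    · intro b _ hb
      rw [← hL, ← Module.End.mul_apply, ← pow_add, ← L_pow_self F.hD,
        L_pow_gt (n := X.dim) (i := 2 * n) (by rw [← cl_divPow]; exact hz.2) (by omega),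
        zero_mul, map_zero]
    · intro h3
      exact absurd (Finset.mem_range.2 (by omega)) h3
  have hpz : pairing ops X D n z z₀ ≠ 0 := by
    intro h3
    have h4 := pairing_cast (W := W) F.hD hn hz.1 hz₀
    rw [h3, Rat.cast_zero, ← hL, ← hdeg] at h4
    rcases mul_eq_zero.1 h4.symm with h5 | h5
    · exact absurd h5 (pow_ne_zero _ (by simp))
    · exact hzw (by exact_mod_cast h5)
  set t : ℚ := -(pairing ops X D n z₀ z₀ + 1) / (2 * pairing ops X D n z z₀) with ht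
  have hb := BP W F.hD n hn
  let Z : PM W X D n := ⟨z, hz⟩
  let Z₀ : PM W X D n := ⟨z₀, hp0⟩
  have e1 : BP W F.hD n hn Z Z = 0 := h0
  have e2 : BP W F.hD n hn Z Z₀ = pairing ops X D n z z₀ := rfl
  have e3 : BP W F.hD n hn Z₀ Z = pairing ops X D n z z₀ := by
    rw [BP_symm]; exact e2
  have e4 : BP W F.hD n hn Z₀ Z₀ = pairing ops X D n z₀ z₀ := rfl
  refine ⟨((Z₀ + t • Z : PM W X D n) : X.Cycles), (Z₀ + t • Z).2, ?_⟩
  change BP W F.hD n hn (Z₀ + t • Z) (Z₀ + t • Z) < 0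
  rw [map_add, map_add, LinearMap.add_apply, LinearMap.add_apply, map_smul, map_smul,
    LinearMap.smul_apply, LinearMap.smul_apply, map_smul, e1, e2, e3, e4, smul_zero, smul_zero,
    smul_eq_mul]
  have e5 : 2 * (t * pairing ops X D n z z₀) = -(pairing ops X D n z₀ z₀ + 1) := by
    rw [ht]
    field_simp
  linarith

/-- The sign in codimension zero. -/
lemma prim_zero (hpos : 0 < X.V.degCycle (divPow ops D X.dim X.V.fundCycle)) {z : X.Cycles}
    (hz : Primitive W X D 0 z) : 0 ≤ pairing ops X D 0 z z := by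
  set L := LinearMap.mulLeft W.K (W.cl X D) with hL
  set δ := X.V.degCycle (divPow ops D X.dim X.V.fundCycle) with hδ
  have h1 : W.cl X z ∈ W.gr X 0 := W.cl_mem hz.1
  rw [W.gr_zero, Submodule.mem_span_singleton] at h1
  obtain ⟨c, hc⟩ := h1
  have hδ' : W.tr X ((L ^ X.dim) 1) = (δ : W.K) := by
    have h2 := divPow_mem (ops := ops) F.hD X.dim X.V.fundCycle_mem
    rw [zero_add] at h2
    rw [hδ, ← W.tr_cl h2, cl_divPow, W.cl_fund]
  have h2 : ((pairing ops X D 0 z X.V.fundCycle : ℚ) : W.K) = c * δ := by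
    rw [pairing_cast F.hD (by omega) hz.1 X.V.fundCycle_mem, ← hc, W.cl_fund, ← hL, mul_zero,
      Nat.sub_zero, smul_mul_assoc, one_mul, map_smul, hδ', pow_zero, one_mul, smul_eq_mul]
  have h3 : ((pairing ops X D 0 z z : ℚ) : W.K) = c * (c * δ) := by
    rw [pairing_cast F.hD (by omega) hz.1 hz.1, ← hc, ← hL, mul_zero,
      Nat.sub_zero, map_smul, smul_mul_assoc, one_mul, map_smul, map_smul, hδ', pow_zero,
      one_mul, smul_eq_mul, smul_eq_mul]
  set r : ℚ := pairing ops X D 0 z X.V.fundCycle with hr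
  have h4 : δ * pairing ops X D 0 z z = r * r := by
    have h5 : ((δ * pairing ops X D 0 z z : ℚ) : W.K) = ((r * r : ℚ) : W.K) := by
      rw [Rat.cast_mul, Rat.cast_mul, h3, h2]
      ring
    exact_mod_cast h5
  by_contra h5
  have h6 : pairing ops X D 0 z z < 0 := not_le.1 h5
  have h7 := mul_self_nonneg r
  nlinarith

/-- **The classes given by a failure of the standard conjecture of Hodge type.** -/
theorem exists_pair (hpos : 0 < X.V.degCycle (divPow ops D X.dim X.V.fundCycle))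
    (hno : ¬ HodgeNum W X D) : ∃ (m : ℤ) (α β : W.H X) (a b : ℚ), AW W X m α ∧ AW W X m β ∧
      a < 0 ∧ 0 < b ∧ bf W X D f α α = (a : W.K) ∧ bf W X D f β β = (b : W.K) ∧
      bf W X D f α β = 0 := by
  rw [HodgeNum] at hno
  push Not at hno
  obtain ⟨n, hn, z, hz, ⟨w, hw, hzw⟩, hle⟩ := hno
  obtain ⟨z', hz', hneg⟩ := exists_neg F hn hz hw hzw hle
  have hn0 : n ≠ 0 := by
    rintro rfl
    exact absurd (prim_zero F hpos hz') (not_le.2 hneg)
  set L := LinearMap.mulLeft W.K (W.cl X D) with hL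
  have h1 : Primitive W X D 0 X.V.fundCycle := by
    refine ⟨X.V.fundCycle_mem, ?_⟩
    have h2 := W.cl_mem (divPow_mem (ops := ops) F.hD (X.dim - 2 * 0 + 1) X.V.fundCycle_mem)
    rw [W.gr_eq_bot X _ (by omega)] at h2
    exact (Submodule.mem_bot _).1 h2
  have h2 : pairing ops X D 0 X.V.fundCycle X.V.fundCycle =
      X.V.degCycle (divPow ops D X.dim X.V.fundCycle) := by
    have h3 : ((pairing ops X D 0 X.V.fundCycle X.V.fundCycle : ℚ) : W.K) =
        ((X.V.degCycle (divPow ops D X.dim X.V.fundCycle) : ℚ) : W.K) := by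
      have h4 := divPow_mem (ops := ops) F.hD X.dim X.V.fundCycle_mem
      rw [zero_add] at h4
      rw [pairing_cast F.hD (by omega) X.V.fundCycle_mem X.V.fundCycle_mem, ← W.tr_cl h4,
        cl_divPow, W.cl_fund, one_mul, pow_zero, one_mul, mul_zero, Nat.sub_zero]
    exact_mod_cast h3
  have hα := bf_same F hn hz' hz' (j := 0) (by omega)
  have hβ := bf_same F (by omega) h1 h1 (j := n) (by omega)
  have hαβ := bf_cross F hn (by omega) hn0 hz' h1 (j := 0) (j' := n) (by omega) (by omega)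
  rw [← hL] at hα hβ hαβ
  rw [pow_zero, Module.End.one_apply] at hα hαβ
  have hw1 : ∀ x ∈ W.gr X (2 * n), wt (W.isInternal X) X.dim x =
      (((2 * n : ℕ) : ℤ) - (X.dim : ℤ) : ℤ) • x := by
    intro x hx
    rw [Fr.wt_gr hx]
    have : (((2 * n : ℕ) : ℤ) - (X.dim : ℤ) : ℤ) • x =
        ((((2 * n : ℕ) : ℤ) - (X.dim : ℤ) : ℤ) : W.K) • x := by
      rw [Int.cast_smul_eq_zsmul]
    rw [this]
    push_cast
    rfl
  have hβalg : (L ^ n) (W.cl X X.V.fundCycle) ∈ algClasses W X (0 + n) :=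
    (ap_alg F).map_L_pow n ⟨_, X.V.fundCycle_mem, rfl⟩
  rw [zero_add] at hβalg
  refine ⟨((2 * n : ℕ) : ℤ) - (X.dim : ℤ), W.cl X z', (L ^ n) (W.cl X X.V.fundCycle), _, _,
    ⟨AS.of ⟨z', hz'.1, rfl⟩, ?_⟩, ⟨AS.of hβalg, ?_⟩, ?_, ?_, hα, hβ, hαβ⟩
  · rw [hw1 _ (W.cl_mem hz'.1), Int.cast_smul_eq_zsmul]
  · rw [hw1 _ (alg_gr hβalg), Int.cast_smul_eq_zsmul]
  · apply mul_neg_of_pos_of_neg _ hneg
    positivity
  · rw [h2]
    positivity

end

end Pool.Agent.Y97
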