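import Pool.Agent.W539.Ker.Final
import Pool.Agent.Y97.Defs

/-!
# Comparison of polarized varieties
-/

open CategoryTheory AlgebraicGeometry Finset

universe u v

namespace Pool.Agent.Y97

open Pool.Agent.H914 Pool.Agent.H914.VarClass Pool.Agent.H914.VarClass.Obj
  Pool.Agent.H914.WeilCohomology Pool.Agent.H281R3.HT Pool.Agent.W552 Pool.Agent.W539.Ker

variable {k : Type u} [Field k] {𝒱 : VarClass k} {ops : CycleOps 𝒱}

/-- There is a morphism from `P` to `Q` compatible with the divisors and the orientations. -/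
structure Cmp (W : WeilCohomology.{u, v} ops) (P Q : Polarized 𝒱) : Prop where
  dim : P.X.dim = Q.X.dim
  ex : ∃ φ : P.X ⟶ Q.X, W.map φ (W.cl _ Q.D) = W.cl _ P.D ∧
    ∀ c, W.tr P.X (W.map φ c) = W.tr Q.X c

variable {W : WeilCohomology.{u, v} ops} {P Q R P' Q' : Polarized 𝒱}

namespace Cmp

lemma refl (P : Polarized 𝒱) : Cmp W P P :=
  ⟨rfl, 𝟙 _, W.map_id _ _, fun c => by rw [W.map_id]⟩

lemma trans (h : Cmp W P Q) (h' : Cmp W Q R) : Cmp W P R := by
  obtain ⟨hd, φ, h1, h2⟩ := h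
  obtain ⟨hd', ψ, h1', h2'⟩ := h'
  exact ⟨hd.trans hd', φ ≫ ψ, by rw [W.map_comp, h1', h1],
    fun c => by rw [W.map_comp, h2, h2']⟩

lemma prod (h : Cmp W P Q) (h' : Cmp W P' Q') : Cmp W (P.prod ops P') (Q.prod ops Q') := by
  obtain ⟨hd, φ, h1, h2⟩ := h
  obtain ⟨hd', ψ, h1', h2'⟩ := h'
  have e1 : Obj.lift (fst P.X P'.X ≫ φ) (snd P.X P'.X ≫ ψ) ≫ fst Q.X Q'.X =
      fst P.X P'.X ≫ φ := Obj.lift_fst _ _
  have e2 : Obj.lift (fst P.X P'.X ≫ φ) (snd P.X P'.X ≫ ψ) ≫ snd Q.X Q'.X =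
      snd P.X P'.X ≫ ψ := Obj.lift_snd _ _
  refine ⟨?_, Obj.lift (fst P.X P'.X ≫ φ) (snd P.X P'.X ≫ ψ), ?_, ?_⟩
  · change P.X.dim + P'.X.dim = Q.X.dim + Q'.X.dim
    rw [hd, hd']
  · change W.map (Obj.lift (fst P.X P'.X ≫ φ) (snd P.X P'.X ≫ ψ))
      (W.cl (Q.X.prod Q'.X) (ops.pull (fst Q.X Q'.X) Q.D + ops.pull (snd Q.X Q'.X) Q'.D)) =
      W.cl (P.X.prod P'.X) (ops.pull (fst P.X P'.X) P.D + ops.pull (snd P.X P'.X) P'.D)
    rw [map_add, map_add, W.cl_pull, W.cl_pull, ← W.map_comp, ← W.map_comp, e1, e2, W.map_comp,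
      W.map_comp, h1, h1', map_add, W.cl_pull, W.cl_pull]
  · intro c
    refine W.kunneth_induction (p := fun c => W.tr (P.X.prod P'.X)
      (W.map (Obj.lift (fst P.X P'.X ≫ φ) (snd P.X P'.X ≫ ψ)) c) = W.tr (Q.X.prod Q'.X) c)
      ?_ ?_ c
    · intro a b ha hb
      rw [map_add, map_add, map_add, ha, hb]
    · intro i j a _ b _
      rw [map_mul (W.map (Obj.lift (fst P.X P'.X ≫ φ) (snd P.X P'.X ≫ ψ))), ← W.map_comp,
        ← W.map_comp, e1, e2, W.map_comp, W.map_comp, W.tr_prod, W.tr_prod, h2, h2']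

lemma assoc (P Q R : Polarized 𝒱) : Cmp W ((P.prod ops Q).prod ops R)
    (P.prod ops (Q.prod ops R)) := by
  set φ : (P.X.prod Q.X).prod R.X ⟶ P.X.prod (Q.X.prod R.X) :=
    Obj.lift (fst (P.X.prod Q.X) R.X ≫ fst P.X Q.X)
      (Obj.lift (fst (P.X.prod Q.X) R.X ≫ snd P.X Q.X) (snd (P.X.prod Q.X) R.X)) with hφ
  have e1 : φ ≫ fst P.X (Q.X.prod R.X) = fst (P.X.prod Q.X) R.X ≫ fst P.X Q.X :=
    Obj.lift_fst _ _
  have e2 : φ ≫ snd P.X (Q.X.prod R.X) =
      Obj.lift (fst (P.X.prod Q.X) R.X ≫ snd P.X Q.X) (snd (P.X.prod Q.X) R.X) :=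
    Obj.lift_snd _ _
  have e3 : Obj.lift (fst (P.X.prod Q.X) R.X ≫ snd P.X Q.X) (snd (P.X.prod Q.X) R.X) ≫
      fst Q.X R.X = fst (P.X.prod Q.X) R.X ≫ snd P.X Q.X := Obj.lift_fst _ _
  have e4 : Obj.lift (fst (P.X.prod Q.X) R.X ≫ snd P.X Q.X) (snd (P.X.prod Q.X) R.X) ≫
      snd Q.X R.X = snd (P.X.prod Q.X) R.X := Obj.lift_snd _ _
  refine ⟨?_, φ, ?_, ?_⟩
  · change P.X.dim + Q.X.dim + R.X.dim = P.X.dim + (Q.X.dim + R.X.dim)
    rw [add_assoc]
  · change W.map φ (W.cl (P.X.prod (Q.X.prod R.X)) (ops.pull (fst P.X (Q.X.prod R.X)) P.D +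
      ops.pull (snd P.X (Q.X.prod R.X))
        (ops.pull (fst Q.X R.X) Q.D + ops.pull (snd Q.X R.X) R.D))) =
      W.cl ((P.X.prod Q.X).prod R.X) (ops.pull (fst (P.X.prod Q.X) R.X)
        (ops.pull (fst P.X Q.X) P.D + ops.pull (snd P.X Q.X) Q.D) +
        ops.pull (snd (P.X.prod Q.X) R.X) R.D)
    simp only [map_add, W.cl_pull]
    rw [← W.map_comp, e1, ← W.map_comp φ, e2, ← W.map_comp φ, e2, ← W.map_comp, ← W.map_comp, e3,
      e4, W.map_comp, W.map_comp, add_assoc]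
  · intro c
    refine W.kunneth_induction (p := fun c => W.tr ((P.X.prod Q.X).prod R.X)
      (W.map φ c) = W.tr (P.X.prod (Q.X.prod R.X)) c) ?_ ?_ c
    · intro a b ha hb
      rw [map_add, map_add, map_add, ha, hb]
    intro i j a _ b _
    refine W.kunneth_induction (p := fun b => W.tr ((P.X.prod Q.X).prod R.X)
      (W.map φ (W.map (fst P.X (Q.X.prod R.X)) a * W.map (snd P.X (Q.X.prod R.X)) b)) =
        W.tr (P.X.prod (Q.X.prod R.X))
        (W.map (fst P.X (Q.X.prod R.X)) a * W.map (snd P.X (Q.X.prod R.X)) b)) ?_ ?_ b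
    · intro b b' hb hb'
      simp only [map_add, mul_add] at hb hb' ⊢
      rw [hb, hb']
    intro i' j' b _ c _
    rw [W.tr_prod, W.tr_prod, map_mul (W.map φ), ← W.map_comp, ← W.map_comp, e1, e2,
      map_mul (W.map (Obj.lift (fst (P.X.prod Q.X) R.X ≫ snd P.X Q.X)
        (snd (P.X.prod Q.X) R.X))), ← W.map_comp, ← W.map_comp, e3, e4, W.map_comp, W.map_comp,
      ← mul_assoc, ← map_mul (W.map (fst (P.X.prod Q.X) R.X)), W.tr_prod, W.tr_prod, mul_assoc]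

lemma assoc' (P Q R : Polarized 𝒱) : Cmp W (P.prod ops (Q.prod ops R))
    ((P.prod ops Q).prod ops R) := by
  set φ : P.X.prod (Q.X.prod R.X) ⟶ (P.X.prod Q.X).prod R.X :=
    Obj.lift (Obj.lift (fst P.X (Q.X.prod R.X)) (snd P.X (Q.X.prod R.X) ≫ fst Q.X R.X))
      (snd P.X (Q.X.prod R.X) ≫ snd Q.X R.X) with hφ
  have e1 : φ ≫ snd (P.X.prod Q.X) R.X = snd P.X (Q.X.prod R.X) ≫ snd Q.X R.X :=
    Obj.lift_snd _ _
  have e2 : φ ≫ fst (P.X.prod Q.X) R.X =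
      Obj.lift (fst P.X (Q.X.prod R.X)) (snd P.X (Q.X.prod R.X) ≫ fst Q.X R.X) :=
    Obj.lift_fst _ _
  have e3 : Obj.lift (fst P.X (Q.X.prod R.X)) (snd P.X (Q.X.prod R.X) ≫ fst Q.X R.X) ≫
      fst P.X Q.X = fst P.X (Q.X.prod R.X) := Obj.lift_fst _ _
  have e4 : Obj.lift (fst P.X (Q.X.prod R.X)) (snd P.X (Q.X.prod R.X) ≫ fst Q.X R.X) ≫
      snd P.X Q.X = snd P.X (Q.X.prod R.X) ≫ fst Q.X R.X := Obj.lift_snd _ _
  refine ⟨?_, φ, ?_, ?_⟩
  · change P.X.dim + (Q.X.dim + R.X.dim) = P.X.dim + Q.X.dim + R.X.dim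
    rw [add_assoc]
  · change W.map φ (W.cl ((P.X.prod Q.X).prod R.X) (ops.pull (fst (P.X.prod Q.X) R.X)
        (ops.pull (fst P.X Q.X) P.D + ops.pull (snd P.X Q.X) Q.D) +
        ops.pull (snd (P.X.prod Q.X) R.X) R.D)) =
      W.cl (P.X.prod (Q.X.prod R.X)) (ops.pull (fst P.X (Q.X.prod R.X)) P.D +
      ops.pull (snd P.X (Q.X.prod R.X))
        (ops.pull (fst Q.X R.X) Q.D + ops.pull (snd Q.X R.X) R.D))
    simp only [map_add, W.cl_pull]
    rw [← W.map_comp φ, e2, ← W.map_comp φ, e2, ← W.map_comp φ, e1, ← W.map_comp, ← W.map_comp,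
      e3, e4, W.map_comp, W.map_comp, add_assoc]
  · intro c
    refine W.kunneth_induction (p := fun c => W.tr (P.X.prod (Q.X.prod R.X))
      (W.map φ c) = W.tr ((P.X.prod Q.X).prod R.X) c) ?_ ?_ c
    · intro a b ha hb
      rw [map_add, map_add, map_add, ha, hb]
    intro i j a _ b _
    refine W.kunneth_induction (p := fun a => W.tr (P.X.prod (Q.X.prod R.X))
      (W.map φ (W.map (fst (P.X.prod Q.X) R.X) a * W.map (snd (P.X.prod Q.X) R.X) b)) =
        W.tr ((P.X.prod Q.X).prod R.X)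
        (W.map (fst (P.X.prod Q.X) R.X) a * W.map (snd (P.X.prod Q.X) R.X) b)) ?_ ?_ a
    · intro b b' hb hb'
      simp only [map_add, add_mul] at hb hb' ⊢
      rw [hb, hb']
    intro i' j' a _ c _
    rw [W.tr_prod, W.tr_prod, map_mul (W.map φ), ← W.map_comp, ← W.map_comp, e1, e2,
      map_mul (W.map (Obj.lift (fst P.X (Q.X.prod R.X))
        (snd P.X (Q.X.prod R.X) ≫ fst Q.X R.X))), ← W.map_comp, ← W.map_comp, e3, e4,
      W.map_comp, W.map_comp, mul_assoc, ← map_mul (W.map (snd P.X (Q.X.prod R.X))), W.tr_prod,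
      W.tr_prod, mul_assoc]

/-- Families of cycles can be pulled back. -/
lemma family (h : Cmp W P Q) (hP : P.X.IsCyc 1 P.D) (hQ : Q.X.IsCyc 1 Q.D) {n : ℕ}
    (hn : 2 * n ≤ P.X.dim) {s : ℚ} {r : ℕ} (hf : HasFamily W Q.X Q.D n s r) :
    HasFamily W P.X P.D n s r := by
  obtain ⟨hd, φ, hcl, htr⟩ := h
  obtain ⟨z, hz, hpos, horth⟩ := hf
  have hpow : ∀ (m : ℕ) (x : W.H Q.X),
      ((LinearMap.mulLeft W.K (W.cl P.X P.D)) ^ m) (W.map φ x) =
        W.map φ (((LinearMap.mulLeft W.K (W.cl Q.X Q.D)) ^ m) x) := by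
    intro m
    induction m with
    | zero => intro x; simp
    | succ m ih =>
      intro x
      rw [pow_succ, Module.End.mul_apply, LinearMap.mulLeft_apply, ← hcl, ← map_mul, hcl, ih,
        pow_succ, Module.End.mul_apply, LinearMap.mulLeft_apply]
  have hprim : ∀ i, Primitive W P.X P.D n (ops.pull φ (z i)) := by
    intro i
    refine ⟨ops.pull_mem _ (hz i).1, ?_⟩
    have h1 := (hz i).2
    rw [cl_divPow] at h1
    rw [cl_divPow, W.cl_pull, hpow, hd, h1, map_zero]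
  have hpair : ∀ i j, pairing ops P.X P.D n (ops.pull φ (z i))
      (ops.pull φ (z j)) = pairing ops Q.X Q.D n (z i) (z j) := by
    intro i j
    have h1 : ((pairing ops P.X P.D n (ops.pull φ (z i)) (ops.pull φ (z j)) : ℚ) : W.K) =
        ((pairing ops Q.X Q.D n (z i) (z j) : ℚ) : W.K) := by
      rw [pairing_cast hP hn (hprim i).1 (hprim j).1,
        pairing_cast hQ (by omega) (hz i).1 (hz j).1, W.cl_pull, W.cl_pull, hpow,
        ← map_mul, htr, hd]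
    exact_mod_cast h1
  exact ⟨fun i => ops.pull φ (z i), hprim, fun i => by rw [hpair]; exact hpos i,
    fun i j hij => by rw [hpair]; exact horth i j hij⟩

end Cmp

/-- Comparison in both directions. -/
def Eqv (W : WeilCohomology.{u, v} ops) (P Q : Polarized 𝒱) : Prop := Cmp W P Q ∧ Cmp W Q P

namespace Eqv

lemma refl (P : Polarized 𝒱) : Eqv W P P := ⟨Cmp.refl P, Cmp.refl P⟩

lemma trans (h : Eqv W P Q) (h' : Eqv W Q R) : Eqv W P R := ⟨h.1.trans h'.1, h'.2.trans h.2⟩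

lemma symm (h : Eqv W P Q) : Eqv W Q P := ⟨h.2, h.1⟩

lemma prod (h : Eqv W P Q) (h' : Eqv W P' Q') : Eqv W (P.prod ops P') (Q.prod ops Q') :=
  ⟨h.1.prod h'.1, h.2.prod h'.2⟩

lemma assoc (P Q R : Polarized 𝒱) : Eqv W ((P.prod ops Q).prod ops R)
    (P.prod ops (Q.prod ops R)) := ⟨Cmp.assoc P Q R, Cmp.assoc' P Q R⟩

lemma signs_eq (h : Eqv W P Q) (hP : P.X.IsCyc 1 P.D) (hQ : Q.X.IsCyc 1 Q.D) {n : ℕ}
    (hn : 2 * n ≤ P.X.dim) (s : ℚ) : signs W P.X P.D n s = signs W Q.X Q.D n s := by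
  have hd := h.1.dim
  rw [signs, signs]
  congr 1
  ext r
  exact ⟨fun hf => h.2.family hQ hP (by omega) hf, fun hf => h.1.family hP hQ hn hf⟩

end Eqv

/-- The product of two powers. -/
lemma power_add (W : WeilCohomology.{u, v} ops) (P : Polarized 𝒱) (a b : ℕ) :
    Eqv W ((power ops P a).prod ops (power ops P b)) (power ops P (a + b + 1)) := by
  induction a with
  | zero =>
    rw [Nat.zero_add]
    exact Eqv.refl _
  | succ a ih =>
    rw [show a + 1 + b + 1 = (a + b + 1) + 1 by omega]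
    exact (Eqv.assoc P (power ops P a) (power ops P b)).trans ((Eqv.refl P).prod ih)

/-- The product `Z × (Z × (⋯ × Y))`. -/
noncomputable def blk (ops : CycleOps 𝒱) (Z Y : Polarized 𝒱) : ℕ → Polarized 𝒱
  | 0 => Y
  | k + 1 => Z.prod ops (blk ops Z Y k)

lemma blk_eqv (W : WeilCohomology.{u, v} ops) (P : Polarized 𝒱) (m j : ℕ) (k : ℕ) :
    Eqv W (blk ops (power ops P m) (power ops P j) k) (power ops P (k * (m + 1) + j)) := by
  induction k with
  | zero =>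
    rw [Nat.zero_mul, Nat.zero_add]
    exact Eqv.refl _
  | succ k ih =>
    rw [show (k + 1) * (m + 1) + j = m + (k * (m + 1) + j) + 1 by ring]
    exact ((Eqv.refl (power ops P m)).prod ih).trans (power_add W P m _)

end Pool.Agent.Y97
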