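import Pool.Agent.Y97.Pos

/-!
# Products of polarized varieties with algebraic operators
-/

open CategoryTheory AlgebraicGeometry Finset

universe u v

namespace Pool.Agent.Y97

open Pool.Agent.H914 Pool.Agent.H914.VarClass Pool.Agent.H914.VarClass.Obj
  Pool.Agent.H914.WeilCohomology Pool.Agent.H281R3.HT Pool.Agent.W552 Pool.Agent.W539.Ker
  Pool.Agent.H447

section Abs

variable {K : Type*} [Field K] [CharZero K] {V : Type*} [AddCommGroup V] [Module K V]
  [Module.Finite K V] {gr : ℕ → Submodule K V}

/-- Hard Lefschetz from an action of the Lie algebra `sl₂`. -/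
lemma hardLef_of_sl2 (h : DirectSum.IsInternal gr) {n : ℕ}
    (hbd : ∀ i, 2 * n + 1 ≤ i → gr i = ⊥) {L f : Module.End K V} (t : Sl2 (wt h n) L f) :
    HardLef gr n L := by
  have hwt : ∀ i, ∀ a ∈ gr i, wt h n a = ((i : K) - n) • a := by
    intro i a ha
    rw [wt, scal_apply _ _ ha, node]
    push_cast
    rfl
  intro i hi
  constructor
  · intro a ha h0
    refine e_pow_inj t (c := n - i) ?_ h0
    rw [hwt i a ha, Nat.cast_sub hi]
    congr 1
    ring
  · intro b hb
    have h1 : wt h n b = (((n - i : ℕ) : ℤ) : K) • b := by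
      rw [hwt _ b hb, Nat.cast_sub (by omega), Int.cast_natCast, Nat.cast_sub hi]
      congr 1
      push_cast
      ring
    obtain ⟨z, hz, hz'⟩ := exists_preimage' t (P := fun d x => wt h n x = (d : K) • x)
      (fun d => by rw [map_zero, smul_zero])
      (fun {d x y} hx hy => by rw [map_add, hx, hy, smul_add])
      (fun q {d x} hx => by rw [map_smul, hx, smul_comm])
      (fun {d x} hx => by
        have h2 := congrArg (fun F => F x) t.he
        simp only [LinearMap.sub_apply, Module.End.mul_apply] at h2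
        have h3 : (2 : Module.End K V) (L x) = (2 : K) • L x := by
          rw [ofNat_smul_eq_nsmul]; rfl
        rw [hx, map_smul, h3, sub_eq_iff_eq_add] at h2
        rw [h2, ← add_smul]
        congr 1
        push_cast
        ring)
      (fun {d x} hx => by
        have h2 := congrArg (fun F => F x) t.hf
        simp only [LinearMap.sub_apply, Module.End.mul_apply, LinearMap.neg_apply] at h2
        have h3 : (2 : Module.End K V) (f x) = (2 : K) • f x := by
          rw [ofNat_smul_eq_nsmul]; rfl
        rw [hx, map_smul, h3, sub_eq_iff_eq_add] at h2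
        rw [h2, ← neg_smul, ← add_smul]
        congr 1
        push_cast
        ring)
      (fun {d x} hx => hx) (n - i) h1
    refine ⟨z, ?_, hz'⟩
    refine (mem_gr_of_wt h hbd (n := n) (μ := (((-((n - i : ℕ) : ℤ)) : ℤ) : K)) hz).1 i ?_
    push_cast [Nat.cast_sub hi]
    ring

end Abs

variable {k : Type u} [Field k] {𝒱 : VarClass k} {ops : CycleOps 𝒱}
  {W : WeilCohomology.{u, v} ops} {X Y : 𝒱.Obj} {D : X.Cycles} {f : Module.End W.K (W.H X)}
  {E : Y.Cycles} {g : Module.End W.K (W.H Y)}

/-- The projector onto a degree of the cohomology of a product. -/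
lemma proj_prod (n : ℕ) : proj (W.isInternal (X.prod Y)) n =
    ∑ i ∈ range (2 * X.dim + 1), ∑ j ∈ range (2 * Y.dim + 1),
      if i + j = n then extOp W (proj (W.isInternal X) i) (proj (W.isInternal Y) j) else 0 := by
  apply LinearMap.ext
  intro c
  refine W.kunneth_induction (p := fun c => proj (W.isInternal (X.prod Y)) n c =
    (∑ i ∈ range (2 * X.dim + 1), ∑ j ∈ range (2 * Y.dim + 1),
      if i + j = n then extOp W (proj (W.isInternal X) i) (proj (W.isInternal Y) j) else 0) c)
    ?_ ?_ c
  · intro a b ha hb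
    rw [map_add, map_add, ha, hb]
  intro i j a ha b hb
  have hab : W.map (fst X Y) a * W.map (snd X Y) b ∈ W.gr (X.prod Y) (i + j) :=
    W.mul_mem (W.map_mem _ ha) (W.map_mem _ hb)
  by_cases hi : i ≤ 2 * X.dim
  swap
  · rw [W.gr_eq_bot X i (by omega)] at ha
    rw [(Submodule.mem_bot _).1 ha]
    simp
  by_cases hj : j ≤ 2 * Y.dim
  swap
  · rw [W.gr_eq_bot Y j (by omega)] at hb
    rw [(Submodule.mem_bot _).1 hb]
    simp
  rw [LinearMap.sum_apply, Finset.sum_eq_single i]
  · rw [LinearMap.sum_apply, Finset.sum_eq_single j]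
    · by_cases hij : i + j = n
      · rw [if_pos hij, extOp_tmul, proj_same _ ha, proj_same _ hb]
        exact proj_same _ (hij ▸ hab)
      · rw [if_neg hij, LinearMap.zero_apply]
        exact proj_ne _ hab hij
    · intro j' _ hne
      split_ifs
      · rw [extOp_tmul, proj_ne _ hb (Ne.symm hne), map_zero, mul_zero]
      · rw [LinearMap.zero_apply]
    · intro h0
      exact absurd (Finset.mem_range.2 (by omega)) h0
  · intro i' _ hne
    rw [LinearMap.sum_apply]
    apply Finset.sum_eq_zero
    intro j' _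
    split_ifs
    · rw [extOp_tmul, proj_ne _ ha (Ne.symm hne), map_zero, zero_mul]
    · rw [LinearMap.zero_apply]
  · intro h0
    exact absurd (Finset.mem_range.2 (by omega)) h0

/-- A polarized variety all of whose operators are algebraic. -/
structure Gp (W : WeilCohomology.{u, v} ops) (X : 𝒱.Obj) (D : X.Cycles)
    (f : Module.End W.K (W.H X)) : Prop where
  fr : Fr W X D f
  pj : ∀ i, AOp W X X (proj (W.isInternal X) i)

lemma Gp.gd (G : Gp W X D f) : Gd W X D f where
  fr := G.fr
  ls := ⟨mulLeft_isHom G.fr.hD, W_hbd, hardLef_of_sl2 (W.isInternal X) W_hbd G.fr.sl2, G.fr.sl2⟩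
  sa := st_aop G.fr G.pj
  pa := par_aop G.pj

lemma exists_gp {D : X.Cycles} (hD : X.IsCyc 1 D) (hHL : HardLefschetz W X D)
    (hB : LefschetzB W X D) : ∃ f, Gp W X D f := by
  obtain ⟨f, F, -⟩ := exists_fr hD hHL hB
  exact ⟨f, F, proj_aop hD hHL hB⟩

lemma Gp.prod (G : Gp W X D f) (G' : Gp W Y E g) :
    Gp W (X.prod Y) (ops.pull (fst X Y) D + ops.pull (snd X Y) E) (extSum W f g) where
  fr := G.fr.prod G'.fr
  pj n := by
    rw [proj_prod]
    apply AOp.ratSub.sum
    intro i _
    apply AOp.ratSub.sum
    intro j _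
    split_ifs
    · exact (G.pj i).ext (G'.pj j)
    · exact AOp.zero

lemma gp_power {P : Polarized 𝒱} {f : Module.End W.K (W.H P.X)} (G : Gp W P.X P.D f) (r : ℕ) :
    ∃ g, Gp W (power ops P r).X (power ops P r).D g := by
  induction r with
  | zero => exact ⟨f, G⟩
  | succ r ih =>
    obtain ⟨g, G'⟩ := ih
    exact ⟨extSum W f g, G.prod G'⟩

end Pool.Agent.Y97
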