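import Pool.Agent.Y97.Lower

/-!
# The zero-one-half law for the signs of the algebraic classes
-/

open CategoryTheory AlgebraicGeometry Finset

universe u v w

namespace Pool.Agent.Y97

section Analysis

open Filter Topology

/-- Polynomial factors are absorbed by an exponential rate. -/
lemma exists_rate (M N : ℕ) (hM : 0 < M) {l : ℝ} (hl0 : 0 ≤ l) (hl1 : l < 1) :
    ∃ ρ : ℝ, 0 < ρ ∧ ρ < 1 ∧ ∃ B : ℝ, 0 ≤ B ∧
      ∀ r : ℕ, ((r : ℝ) + 2) ^ N * l ^ (r / M) ≤ B * ρ ^ r := by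
  set μ : ℝ := max l (1 / 2) with hμ
  have hμ0 : 0 < μ := lt_of_lt_of_le (by norm_num) (le_max_right _ _)
  have hμ1 : μ < 1 := max_lt hl1 (by norm_num)
  set ν : ℝ := μ ^ ((M : ℝ)⁻¹) with hν
  have hν0 : 0 < ν := Real.rpow_pos_of_pos hμ0 _
  have hM' : (0 : ℝ) < M := by exact_mod_cast hM
  have hν1 : ν < 1 := Real.rpow_lt_one hμ0.le hμ1 (by positivity)
  have hνM : ν ^ M = μ := by
    rw [hν, ← Real.rpow_natCast, ← Real.rpow_mul hμ0.le, inv_mul_cancel₀ hM'.ne', Real.rpow_one]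
  set ρ : ℝ := (1 + ν) / 2 with hρ
  have hρ0 : 0 < ρ := by rw [hρ]; linarith
  have hρ1 : ρ < 1 := by rw [hρ]; linarith
  have hνρ : ν < ρ := by rw [hρ]; linarith
  set t : ℝ := ν / ρ with ht
  have ht0 : 0 < t := div_pos hν0 hρ0
  have ht1 : t < 1 := (div_lt_one hρ0).2 hνρ
  have htend := tendsto_pow_const_mul_const_pow_of_abs_lt_one N
    (r := t) (by rw [abs_of_pos ht0]; exact ht1)
  obtain ⟨B, hB⟩ := htend.bddAbove_range
  have hB' : ∀ r : ℕ, ((r : ℝ) + 2) ^ N * t ^ (r + 2) ≤ B := by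
    intro r
    have := hB ⟨r + 2, rfl⟩
    push_cast at this
    exact this
  have hB0 : 0 ≤ B := le_trans (by positivity) (hB' 0)
  refine ⟨ρ, hρ0, hρ1, B / t ^ 2 / μ, by positivity, ?_⟩
  intro r
  have h1 : l ^ (r / M) ≤ ν ^ r / μ := by
    calc l ^ (r / M) ≤ μ ^ (r / M) := pow_le_pow_left₀ hl0 (le_max_left _ _) _
      _ = ν ^ (M * (r / M)) := by rw [pow_mul, hνM]
      _ ≤ ν ^ r / μ := by
          rw [le_div_iff₀ hμ0, ← hνM, ← pow_add]
          apply pow_le_pow_of_le_one hν0.le hν1.le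
          have := Nat.div_add_mod r M
          have := Nat.mod_lt r hM
          omega
  have h2 : ν ^ r = t ^ r * ρ ^ r := by
    rw [← mul_pow, ht, div_mul_cancel₀ _ hρ0.ne']
  have h3 : ((r : ℝ) + 2) ^ N * t ^ r ≤ B / t ^ 2 := by
    rw [le_div_iff₀ (by positivity), mul_assoc, ← pow_add]
    exact hB' r
  calc ((r : ℝ) + 2) ^ N * l ^ (r / M) ≤ ((r : ℝ) + 2) ^ N * (ν ^ r / μ) :=
        mul_le_mul_of_nonneg_left h1 (by positivity)
    _ = (((r : ℝ) + 2) ^ N * t ^ r) * ρ ^ r / μ := by rw [h2]; ring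
    _ ≤ (B / t ^ 2) * ρ ^ r / μ := by
        apply div_le_div_of_nonneg_right _ hμ0.le
        exact mul_le_mul_of_nonneg_right h3 (by positivity)
    _ = _ := by ring

end Analysis

open Pool.Agent.H914 Pool.Agent.H914.VarClass Pool.Agent.H914.VarClass.Obj
  Pool.Agent.H914.WeilCohomology Pool.Agent.H281R3.HT Pool.Agent.W552 Pool.Agent.W539.Ker

variable {k : Type u} [Field k] {𝒱 : VarClass k} {ops : CycleOps 𝒱}
  {W : WeilCohomology.{u, v} ops} {P Q : Polarized 𝒱}

/-- The rank on the products is large. -/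
lemma lower {f : Module.End W.K (W.H P.X)} (G : Gp W P.X P.D f)
    (hpos : 0 < P.X.V.degCycle (divPow ops P.D P.X.dim P.X.V.fundCycle))
    {fQ : Module.End W.K (W.H Q.X)} (GQ : Gp W Q.X Q.D fQ)
    (hQ : 0 < Q.X.V.degCycle (divPow ops Q.D Q.X.dim Q.X.V.fundCycle)) {r : ℕ} (hr : r ≠ 0)
    (hR : 0 < Module.finrank W.K (W.H P.X)) :
    Module.finrank W.K (W.H P.X) ^ (r + 1) ≤ Module.finrank W.K (W.H P.X) *
      (tot W ((power ops P r).prod ops Q) *
      (r + 2) ^ (Module.finrank W.K (W.H P.X) * Module.finrank W.K (W.H P.X))) := by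
  rcases Nat.even_or_odd' r with ⟨s, rfl | rfl⟩
  · obtain ⟨s, rfl⟩ : ∃ s', s = s' + 1 := ⟨s - 1, by omega⟩
    have h1 := lower_odd G hpos GQ hQ s
    rw [show 2 * (s + 1) = 2 * s + 2 by ring] at h1 ⊢
    rw [pow_succ']
    apply Nat.mul_le_mul_left
    refine h1.trans ?_
    apply Nat.mul_le_mul_left
    exact Nat.pow_le_pow_left (by omega) _
  · have h1 := lower_even G GQ hQ s
    rw [show 2 * s + 1 + 1 = 2 * (s + 1) by ring]
    refine h1.trans ?_
    refine le_trans ?_ (Nat.le_mul_of_pos_left _ hR)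
    apply Nat.mul_le_mul_left
    exact Nat.pow_le_pow_left (by omega) _

lemma finrank_pos (W : WeilCohomology.{u, v} ops) {X : 𝒱.Obj} {D : X.Cycles}
    {f : Module.End W.K (W.H X)} (F : Fr W X D f)
    (hpos : 0 < X.V.degCycle (divPow ops D X.dim X.V.fundCycle)) :
    0 < Module.finrank W.K (W.H X) := by
  obtain ⟨q, hq, h1⟩ := (pos_iff F).1 hpos
  have : Nontrivial (W.H X) := by
    refine ⟨1, 0, ?_⟩
    intro h0
    rw [h0, map_zero] at h1
    have : (0 : ℚ) = q := by exact_mod_cast h1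
    exact hq.ne this
  exact Module.finrank_pos

/-- **The main inequality.** -/
theorem main_ineq {f : Module.End W.K (W.H P.X)} (G : Gp W P.X P.D f)
    (hpos : 0 < P.X.V.degCycle (divPow ops P.D P.X.dim P.X.V.fundCycle)) {m : ℕ}
    (hno : ¬ HodgeNum W (power ops P m).X (power ops P m).D)
    {fQ : Module.End W.K (W.H Q.X)} (GQ : Gp W Q.X Q.D fQ)
    (hQ : 0 < Q.X.V.degCycle (divPow ops Q.D Q.X.dim Q.X.V.fundCycle)) {r : ℕ} (hr : r ≠ 0) :
    imbalance W ((power ops P r).prod ops Q) ≤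
      ((P.X.dim + Q.X.dim + 2) * Module.finrank W.K (W.H Q.X) *
        Module.finrank W.K (W.H P.X)) *
      (((r : ℝ) + 2) ^ (Module.finrank W.K (W.H P.X) * Module.finrank W.K (W.H P.X) + 1) *
        (1 - 2 / (Module.finrank W.K (W.H P.X) : ℝ) ^ (m + 1)) ^ (r / (m + 1))) *
      tot W ((power ops P r).prod ops Q) := by
  set R := Module.finrank W.K (W.H P.X) with hR
  set q := Module.finrank W.K (W.H Q.X) with hq
  have hR0 : 0 < R := finrank_pos W G.fr hpos
  have hlow := lower G hpos GQ hQ hr hR0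
  rw [← hR] at hlow
  have hposm := pos_power G.fr G.gd.sy hpos m
  -- the rank of the reduction
  have hR2 : 2 ≤ R ^ (m + 1) := by
    obtain ⟨f', F', S'⟩ := frame_power G.fr G.gd.sy m
    obtain ⟨m', α, β, a, b, hα, hβ, ha, hb, haa, hbb, hab⟩ := exists_pair F' hposm hno
    obtain ⟨q', hq', hqr⟩ := exists_red F' S' hα hβ ha hb haa hbb hab
    rw [finrank_power, ← hR] at hqr
    omega
  have hdm : r / (m + 1) * (m + 1) + r % (m + 1) = r := by
    rw [mul_comm]; exact Nat.div_add_mod r (m + 1)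
  set kk := r / (m + 1) with hkk
  set j := r % (m + 1) with hj
  have hup : ∀ n ∈ range (((power ops P r).prod ops Q).X.dim / 2 + 1),
      |(signs W ((power ops P r).prod ops Q).X ((power ops P r).prod ops Q).D n 1 : ℝ) -
        signs W ((power ops P r).prod ops Q).X ((power ops P r).prod ops Q).D n (-1)| ≤
      2 * ((((R ^ (m + 1) - 2) ^ kk * (R ^ (j + 1) * q) : ℕ)) : ℝ) := by
    intro n hn
    rw [Finset.mem_range] at hn
    have h1 := upper (Q := Q) G.fr G.gd.sy GQ.fr GQ.gd.sy hposm hno kk j (n := n)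
      (by rw [hdm]; omega)
    rw [hdm] at h1
    exact_mod_cast h1
  rw [imbalance]
  refine (Finset.sum_le_sum hup).trans ?_
  rw [Finset.sum_const, Finset.card_range, nsmul_eq_mul]
  have hdim : ((power ops P r).prod ops Q).X.dim = P.X.dim * (r + 1) + Q.X.dim := by
    change (power ops P r).X.dim + Q.X.dim = _
    rw [dim_power]
  have h2 : (((((power ops P r).prod ops Q).X.dim / 2 + 1 : ℕ) : ℝ)) * 2 ≤
      ((P.X.dim : ℝ) + Q.X.dim + 2) * ((r : ℝ) + 2) := by
    have h3 : (((power ops P r).prod ops Q).X.dim / 2 + 1) * 2 ≤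
        (P.X.dim + Q.X.dim + 2) * (r + 2) := by
      rw [hdim]
      have h4 : ((P.X.dim * (r + 1) + Q.X.dim) / 2 + 1) * 2 ≤
          P.X.dim * (r + 1) + Q.X.dim + 2 := by omega
      refine h4.trans ?_
      nlinarith [Nat.zero_le (P.X.dim), Nat.zero_le (Q.X.dim * r), Nat.zero_le r]
    exact_mod_cast h3
  have hRr : (0 : ℝ) < (R : ℝ) ^ (m + 1) := by positivity
  have h5 : (((R ^ (m + 1) - 2) ^ kk * (R ^ (j + 1) * q) : ℕ) : ℝ) =
      q * ((1 - 2 / (R : ℝ) ^ (m + 1)) ^ kk * (R : ℝ) ^ (r + 1)) := by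
    have h6 : ((R ^ (m + 1) - 2 : ℕ) : ℝ) = (1 - 2 / (R : ℝ) ^ (m + 1)) * (R : ℝ) ^ (m + 1) := by
      rw [Nat.cast_sub hR2]
      push_cast
      field_simp
    have h7 : (R : ℝ) ^ (r + 1) = ((R : ℝ) ^ (m + 1)) ^ kk * (R : ℝ) ^ (j + 1) := by
      rw [← pow_mul, ← pow_add]
      congr 1
      rw [mul_comm]
      omega
    rw [Nat.cast_mul, Nat.cast_pow, h6, Nat.cast_mul, Nat.cast_pow, mul_pow, h7]
    ring
  have hl0 : (0 : ℝ) ≤ 1 - 2 / (R : ℝ) ^ (m + 1) := by
    rw [sub_nonneg, div_le_one hRr]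
    exact_mod_cast hR2
  have h8 : (R : ℝ) ^ (r + 1) ≤ (R : ℝ) * ((tot W ((power ops P r).prod ops Q) : ℝ) *
      ((r : ℝ) + 2) ^ (R * R)) := by exact_mod_cast hlow
  rw [← mul_assoc, h5]
  calc ((((power ops P r).prod ops Q).X.dim / 2 + 1 : ℕ) : ℝ) * 2 *
        (q * ((1 - 2 / (R : ℝ) ^ (m + 1)) ^ kk * (R : ℝ) ^ (r + 1)))
      ≤ (((P.X.dim : ℝ) + Q.X.dim + 2) * ((r : ℝ) + 2)) *
        (q * ((1 - 2 / (R : ℝ) ^ (m + 1)) ^ kk * ((R : ℝ) *
          ((tot W ((power ops P r).prod ops Q) : ℝ) * ((r : ℝ) + 2) ^ (R * R))))) := by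
        apply mul_le_mul h2 _ (by positivity) (by positivity)
        apply mul_le_mul_of_nonneg_left _ (by positivity)
        apply mul_le_mul_of_nonneg_left h8 (by positivity)
    _ = _ := by ring

lemma abs_le_tot (Q : Polarized 𝒱) : imbalance W Q ≤ tot W Q := by
  rw [tot, imbalance]
  push_cast
  apply Finset.sum_le_sum
  intro n _
  refine (abs_sub _ _).trans ?_
  rw [abs_of_nonneg (Nat.cast_nonneg _), abs_of_nonneg (Nat.cast_nonneg _)]

lemma total_eq (Q : Polarized 𝒱) : total W Q = (tot W Q : ℝ) := by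
  rw [total, tot]
  push_cast
  rfl

/-- **The zero-one-half law.** -/
theorem zeroOneHalf (W : WeilCohomology.{u, v} ops) (P : Polarized 𝒱) (hP : Good W P) :
    (∀ r, HodgeNum W (power ops P r).X (power ops P r).D) ∨
    ∃ ρ : ℝ, 0 < ρ ∧ ρ < 1 ∧ ∀ Q : Polarized 𝒱, Good W Q → ∃ C : ℝ, ∀ r,
      imbalance W ((power ops P r).prod ops Q) ≤
        C * ρ ^ r * total W ((power ops P r).prod ops Q) := by
  by_cases h : ∀ r, HodgeNum W (power ops P r).X (power ops P r).D
  · exact Or.inl h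
  right
  push Not at h
  obtain ⟨m, hno⟩ := h
  obtain ⟨f, G⟩ := exists_gp hP.div hP.hardLefschetz hP.lefschetzB
  set R := Module.finrank W.K (W.H P.X) with hR
  have hR0 : 0 < R := finrank_pos W G.fr hP.deg_pos
  have hR2 : 2 ≤ R ^ (m + 1) := by
    obtain ⟨f', F', S'⟩ := frame_power G.fr G.gd.sy m
    obtain ⟨m', α, β, a, b, hα, hβ, ha, hb, haa, hbb, hab⟩ :=
      exists_pair F' (pos_power G.fr G.gd.sy hP.deg_pos m) hno
    obtain ⟨q', hq', hqr⟩ := exists_red F' S' hα hβ ha hb haa hbb hab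
    rw [finrank_power, ← hR] at hqr
    omega
  have hRr : (0 : ℝ) < (R : ℝ) ^ (m + 1) := by positivity
  have hl0 : (0 : ℝ) ≤ 1 - 2 / (R : ℝ) ^ (m + 1) := by
    rw [sub_nonneg, div_le_one hRr]
    exact_mod_cast hR2
  have hl1 : 1 - 2 / (R : ℝ) ^ (m + 1) < 1 := by
    have : 0 < 2 / (R : ℝ) ^ (m + 1) := by positivity
    linarith
  obtain ⟨ρ, hρ0, hρ1, B, hB0, hB⟩ := exists_rate (m + 1) (R * R + 1) (Nat.succ_pos m) hl0 hl1
  refine ⟨ρ, hρ0, hρ1, ?_⟩
  intro Q hQ
  obtain ⟨fQ, GQ⟩ := exists_gp hQ.div hQ.hardLefschetz hQ.lefschetzB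
  set q := Module.finrank W.K (W.H Q.X) with hq
  set A : ℝ := (P.X.dim + Q.X.dim + 2) * q * R with hA
  have hA0 : 0 ≤ A := by positivity
  refine ⟨max 1 (A * B), ?_⟩
  intro r
  rw [total_eq]
  have hT0 : (0 : ℝ) ≤ tot W ((power ops P r).prod ops Q) := Nat.cast_nonneg _
  rcases Nat.eq_zero_or_pos r with h0 | h0
  · subst h0
    rw [pow_zero, mul_one]
    refine (abs_le_tot _).trans ?_
    calc (tot W ((power ops P 0).prod ops Q) : ℝ) =
        1 * (tot W ((power ops P 0).prod ops Q) : ℝ) := (one_mul _).symm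
      _ ≤ _ := mul_le_mul_of_nonneg_right (le_max_left _ _) hT0
  · refine (main_ineq G hP.deg_pos hno GQ hQ.deg_pos h0.ne').trans ?_
    apply mul_le_mul_of_nonneg_right _ hT0
    calc A * (((r : ℝ) + 2) ^ (R * R + 1) *
          (1 - 2 / (R : ℝ) ^ (m + 1)) ^ (r / (m + 1))) ≤ A * (B * ρ ^ r) :=
          mul_le_mul_of_nonneg_left (hB r) hA0
      _ = A * B * ρ ^ r := by ring
      _ ≤ max 1 (A * B) * ρ ^ r :=
          mul_le_mul_of_nonneg_right (le_max_right _ _) (by positivity)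

/-- The standard conjecture of Hodge type excludes minus signs. -/
lemma signs_neg {f : Module.End W.K (W.H P.X)} (F : Fr W P.X P.D f)
    (h : HodgeNum W P.X P.D) {n : ℕ} (hn : 2 * n ≤ P.X.dim) : signs W P.X P.D n (-1) = 0 := by
  have h1 : ∀ r ∈ {r | HasFamily W P.X P.D n (-1) r}, r ≤ 0 := by
    rintro r ⟨z, hz, hpos, -⟩
    by_contra h0
    have h2 := hpos ⟨0, by omega⟩
    set z₀ := z ⟨0, by omega⟩ with hz₀
    have h3 : pairing ops P.X P.D n z₀ z₀ < 0 := by linarith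
    have h4 : P.X.V.degCycle (ops.mul z₀ (divPow ops P.D (P.X.dim - 2 * n) z₀)) ≠ 0 := by
      intro h5
      rw [pairing, h5, mul_zero] at h3
      exact lt_irrefl _ h3
    have h5 := h n hn z₀ (hz _) ⟨divPow ops P.D (P.X.dim - 2 * n) z₀, by
      have := divPow_mem (ops := ops) F.hD (P.X.dim - 2 * n) (hz ⟨0, by omega⟩).1
      rwa [show n + (P.X.dim - 2 * n) = P.X.dim - n by omega] at this, h4⟩
    linarith
  exact Nat.le_zero.1 (csSup_le ⟨0, Fin.elim0, fun i => i.elim0, fun i => i.elim0,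
    fun i => i.elim0⟩ h1)

lemma one_le_signs {f : Module.End W.K (W.H P.X)} (F : Fr W P.X P.D f)
    (hpos : 0 < P.X.V.degCycle (divPow ops P.D P.X.dim P.X.V.fundCycle)) :
    1 ≤ signs W P.X P.D 0 1 := by
  apply le_csSup (bddAbove_family W F.hD (by omega)).1
  have h1 := prim_one F
  have h2 : pairing ops P.X P.D 0 P.X.V.fundCycle P.X.V.fundCycle =
      P.X.V.degCycle (divPow ops P.D P.X.dim P.X.V.fundCycle) := by
    have h3 : ((pairing ops P.X P.D 0 P.X.V.fundCycle P.X.V.fundCycle : ℚ) : W.K) =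
        ((P.X.V.degCycle (divPow ops P.D P.X.dim P.X.V.fundCycle) : ℚ) : W.K) := by
      have h4 := divPow_mem (ops := ops) F.hD P.X.dim P.X.V.fundCycle_mem
      rw [zero_add] at h4
      rw [pairing_cast F.hD (by omega) P.X.V.fundCycle_mem P.X.V.fundCycle_mem, ← W.tr_cl h4,
        cl_divPow, W.cl_fund, one_mul, pow_zero, one_mul, mul_zero, Nat.sub_zero]
    exact_mod_cast h3
  refine ⟨fun _ => P.X.V.fundCycle, fun _ => h1, fun _ => ?_, fun i j hij => ?_⟩
  · rw [one_mul, h2]; exact hpos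
  · exact absurd (Subsingleton.elim i j) hij

/-- The powers satisfy the assumptions. -/
lemma total_pos {f : Module.End W.K (W.H P.X)} (F : Fr W P.X P.D f)
    (hpos : 0 < P.X.V.degCycle (divPow ops P.D P.X.dim P.X.V.fundCycle)) :
    1 ≤ total W P := by
  rw [total_eq]
  have h1 : signs W P.X P.D 0 1 ≤ tot W P := by
    rw [tot]
    refine le_trans (Nat.le_add_right _ _) (Finset.single_le_sum
      (f := fun n => signs W P.X P.D n 1 + signs W P.X P.D n (-1)) (fun _ _ => Nat.zero_le _)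
      (Finset.mem_range.2 (Nat.succ_pos _)))
  exact_mod_cast (one_le_signs F hpos).trans h1

/-- **Exactly one of the two alternatives holds.** -/
theorem zeroOneHalf_xor (W : WeilCohomology.{u, v} ops) (P : Polarized 𝒱) (hP : Good W P) :
    Xor (∀ r, HodgeNum W (power ops P r).X (power ops P r).D)
      (∃ ρ : ℝ, 0 < ρ ∧ ρ < 1 ∧ ∀ Q : Polarized 𝒱, Good W Q → ∃ C : ℝ, ∀ r,
        imbalance W ((power ops P r).prod ops Q) ≤
          C * ρ ^ r * total W ((power ops P r).prod ops Q)) := by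
  rw [xor_iff_or_and_not_and]
  refine ⟨zeroOneHalf W P hP, ?_⟩
  rintro ⟨hH, ρ, hρ0, hρ1, h⟩
  obtain ⟨C, hC⟩ := h P hP
  obtain ⟨f, G⟩ := exists_gp hP.div hP.hardLefschetz hP.lefschetzB
  have hpow : ∀ r, 1 ≤ C * ρ ^ r := by
    intro r
    have h1 := hC r
    have he : Eqv W ((power ops P r).prod ops P) (power ops P (r + 0 + 1)) := power_add W P r 0
    have G1 := (gp_frm G r).prod G
    have G2 := gp_frm G (r + 0 + 1)
    have hd : ((power ops P r).prod ops P).X.dim = (power ops P (r + 0 + 1)).X.dim := he.1.dim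
    have hpos := pos_prod (gp_frm G r).fr G.fr (pos_power G.fr G.gd.sy hP.deg_pos r) hP.deg_pos
    have h2 : 1 ≤ total W ((power ops P r).prod ops P) :=
      total_pos (P := (power ops P r).prod ops P) G1.fr hpos
    have h3 : imbalance W ((power ops P r).prod ops P) = total W ((power ops P r).prod ops P) := by
      rw [imbalance, total]
      apply Finset.sum_congr rfl
      intro n hn
      rw [Finset.mem_range] at hn
      have h4 : signs W ((power ops P r).prod ops P).X ((power ops P r).prod ops P).D n (-1) =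
          0 := by
        rw [he.signs_eq G1.fr.hD G2.fr.hD (by omega)]
        exact signs_neg G2.fr (hH _) (by omega)
      rw [h4, Nat.cast_zero, sub_zero, add_zero, abs_of_nonneg (Nat.cast_nonneg _)]
    rw [h3] at h1
    by_contra h5
    have h6 : C * ρ ^ r < 1 := not_le.1 h5
    nlinarith
  have h7 : Filter.Tendsto (fun r : ℕ => C * ρ ^ r) Filter.atTop (nhds (C * 0)) :=
    (tendsto_pow_atTop_nhds_zero_of_lt_one hρ0.le hρ1).const_mul C
  rw [mul_zero] at h7
  have h8 := ge_of_tendsto' h7 hpow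
  linarith

end Pool.Agent.Y97
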