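import Pool.Agent.Y97.SymOp

/-!
# The lower bound for the ranks
-/

open CategoryTheory AlgebraicGeometry Finset

universe u v w

namespace Pool.Agent.Y97

section Abs

variable {K : Type u} [Field K] [CharZero K] {V : Type v} [AddCommGroup V] [Module K V]
  {b : V →ₗ[K] V →ₗ[K] K} {p : V → Prop}

/-- The bound given by a Gram matrix dominated by fixed functions. -/
lemma gram_bound {n R : ℕ} {c : ℚ} (hc : c ≠ 0) (h : RQ b p) {ι : Type w} [Fintype ι]
    {y : ι → V} {s : ι → ℚ} (hy : MF b p y s) {x : Equiv.Perm (Fin n) → V} (hx : ∀ σ, p (x σ))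
    {g : Equiv.Perm (Fin n) → Equiv.Perm (Fin n) → ℚ}
    (hg : ∀ σ τ, b (x σ) (x τ) = ((c * g σ τ : ℚ) : K)) (hd : ∀ σ, g σ σ = (R : ℚ) ^ n)
    (hb : ∀ σ τ, |g σ τ| ≤
      ((univ.filter fun x : Fin n → Fin R => x ∘ ⇑(τ * σ⁻¹) = x).card : ℚ)) :
    R ^ (2 * n) ≤ Fintype.card ι * (n + 1) ^ (R * R) := by
  classical
  have h1 := hy.gram h hx hg
  set F : Equiv.Perm (Fin n) → ℕ :=
    fun ρ => (univ.filter fun x : Fin n → Fin R => x ∘ ρ = x).card with hF
  have hcard : Fintype.card (Equiv.Perm (Fin n)) = n.factorial := by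
    rw [Fintype.card_perm, Fintype.card_fin]
  have h2 : ∑ σ : Equiv.Perm (Fin n), ((c * g σ σ : ℚ) : ℝ) =
      (c : ℝ) * (n.factorial * (R : ℝ) ^ n) := by
    simp only [hd]
    rw [Finset.sum_const, Finset.card_univ, hcard, nsmul_eq_mul]
    push_cast
    ring
  have h3 : ∑ σ : Equiv.Perm (Fin n), ∑ τ : Equiv.Perm (Fin n), ((c * g σ τ : ℚ) : ℝ) ^ 2 ≤
      (c : ℝ) ^ 2 * (n.factorial * ((n + 1 : ℕ) ^ (R * R) * n.factorial : ℕ)) := by
    have h4 : ∀ σ : Equiv.Perm (Fin n), ∑ τ : Equiv.Perm (Fin n), ((c * g σ τ : ℚ) : ℝ) ^ 2 ≤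
        (c : ℝ) ^ 2 * (((n + 1) ^ (R * R) * n.factorial : ℕ) : ℝ) := by
      intro σ
      have h5 : ∀ τ, ((c * g σ τ : ℚ) : ℝ) ^ 2 ≤ (c : ℝ) ^ 2 * ((F (τ * σ⁻¹) : ℝ) ^ 2) := by
        intro τ
        rw [Rat.cast_mul, mul_pow]
        apply mul_le_mul_of_nonneg_left _ (sq_nonneg _)
        have h6 : |((g σ τ : ℚ) : ℝ)| ≤ (F (τ * σ⁻¹) : ℝ) := by
          have := hb σ τ
          exact_mod_cast this
        rw [← sq_abs ((g σ τ : ℚ) : ℝ)]
        exact pow_le_pow_left₀ (abs_nonneg _) h6 2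
      refine (Finset.sum_le_sum (fun τ _ => h5 τ)).trans ?_
      rw [← Finset.mul_sum]
      apply mul_le_mul_of_nonneg_left _ (sq_nonneg _)
      have h7 : ∑ τ : Equiv.Perm (Fin n), (F (τ * σ⁻¹) : ℝ) ^ 2 =
          ∑ ρ : Equiv.Perm (Fin n), (F ρ : ℝ) ^ 2 :=
        Fintype.sum_equiv (Equiv.mulRight σ⁻¹) _ _ (fun τ => rfl)
      rw [h7]
      have h8 := sum_fix_sq n R
      exact_mod_cast h8
    refine (Finset.sum_le_sum (fun σ _ => h4 σ)).trans (le_of_eq ?_)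
    rw [Finset.sum_const, Finset.card_univ, hcard, nsmul_eq_mul]
    push_cast
    ring
  have hn : (0 : ℝ) < n.factorial := by exact_mod_cast Nat.factorial_pos n
  have hc2 : (0 : ℝ) < (c : ℝ) ^ 2 := by
    have : (c : ℝ) ≠ 0 := by exact_mod_cast hc
    positivity
  rw [h2] at h1
  have h4 : ((c : ℝ) * (n.factorial * (R : ℝ) ^ n)) ^ 2 ≤ (Fintype.card ι : ℝ) *
      ((c : ℝ) ^ 2 * (n.factorial * ((n + 1 : ℕ) ^ (R * R) * n.factorial : ℕ))) :=
    h1.trans (mul_le_mul_of_nonneg_left h3 (Nat.cast_nonneg _))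
  have h5 : ((c : ℝ) ^ 2 * (n.factorial : ℝ) ^ 2) * ((R : ℝ) ^ (2 * n)) ≤
      ((c : ℝ) ^ 2 * (n.factorial : ℝ) ^ 2) *
        ((Fintype.card ι : ℝ) * ((n : ℝ) + 1) ^ (R * R)) := by
    calc ((c : ℝ) ^ 2 * (n.factorial : ℝ) ^ 2) * ((R : ℝ) ^ (2 * n))
        = ((c : ℝ) * (n.factorial * (R : ℝ) ^ n)) ^ 2 := by ring
      _ ≤ _ := h4
      _ = _ := by push_cast; ring
  have h6 := le_of_mul_le_mul_left h5 (by positivity)
  exact_mod_cast h6

end Abs

open Pool.Agent.H914 Pool.Agent.H914.VarClass Pool.Agent.H914.VarClass.Obj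
  Pool.Agent.H914.WeilCohomology Pool.Agent.H281R3.HT Pool.Agent.W552 Pool.Agent.W539.Ker

variable {k : Type u} [Field k] {𝒱 : VarClass k} {ops : CycleOps 𝒱}
  {W : WeilCohomology.{u, v} ops} {P : Polarized 𝒱} {b : HB W P.X}
  {f : Module.End W.K (W.H P.X)}

/-- **The classes of the permutations.** -/
theorem exists_classes (G : Gp W P.X P.D f) (b : HB W P.X) (s : ℕ) :
    ∃ (x : Equiv.Perm (Fin (s + 1)) → W.H ((power ops P s).X.prod (power ops P s).X))
      (g : Equiv.Perm (Fin (s + 1)) → Equiv.Perm (Fin (s + 1)) → ℚ),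
      (∀ σ, AW W _ 0 (x σ)) ∧
      (∀ σ τ, bf W ((power ops P s).X.prod (power ops P s).X)
        (ops.pull (fst (power ops P s).X (power ops P s).X) (power ops P s).D +
          ops.pull (snd (power ops P s).X (power ops P s).X) (power ops P s).D)
        (extSum W (frm W P f s) (frm W P f s)) (x σ) (x τ) = (g σ τ : W.K)) ∧
      (∀ σ, g σ σ = (b.N : ℚ) ^ (s + 1)) ∧
      ∀ σ τ, |g σ τ| ≤
        ((univ.filter fun x : Fin (s + 1) → Fin b.N => x ∘ ⇑(τ * σ⁻¹) = x).card : ℚ) := by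
  classical
  choose u u' hu using fun σ => SP.exists_SP G b s σ
  choose x hx hxu using fun σ => (hu σ).aop
  have hG := (gp_frm G s).gd
  have htr : ∀ σ τ, LinearMap.trace W.K (W.H (power ops P s).X) (u' σ * u τ) =
      bf W ((power ops P s).X.prod (power ops P s).X)
        (ops.pull (fst (power ops P s).X (power ops P s).X) (power ops P s).D +
          ops.pull (snd (power ops P s).X (power ops P s).X) (power ops P s).D)
        (extSum W (frm W P f s) (frm W P f s)) (x σ) (x τ) := by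
    intro σ τ
    have h1 := hG.trace_corr hG (hx τ) (hx σ) (u' := u' σ) (by
      intro a c
      rw [hxu]
      exact (hu σ).adj a c)
    rw [← h1, hxu]
    rfl
  have hsig : ∀ σ τ, ∃ z : ℤ, LinearMap.trace W.K (W.H (power ops P s).X) (u' σ * u τ) =
      (z : W.K) ∧ |z| ≤
        ((univ.filter fun x : Fin (s + 1) → Fin b.N => x ∘ ⇑(τ * σ⁻¹) = x).card : ℤ) := by
    intro σ τ
    apply trace_signed b s
    intro y
    obtain ⟨ε, hε⟩ := (hu τ).act y
    obtain ⟨δ, hδ⟩ := (hu σ).act' (y ∘ τ)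
    refine ⟨ε * δ, ?_⟩
    rw [Module.End.mul_apply, hε, map_smul, hδ, smul_smul]
    push_cast
    rfl
  choose z hz hzb using hsig
  refine ⟨x, fun σ τ => (z σ τ : ℚ), ?_, ?_, ?_, ?_⟩
  · intro σ
    refine ⟨hx σ, ?_⟩
    rw [← hm_corr, hxu, Hm]
    have h1 := (hu σ).wtc.eq
    rw [Int.cast_zero, zero_smul, add_zero]
    exact h1.symm
  · intro σ τ
    rw [← htr, hz]
    push_cast
    rfl
  · intro σ
    have h1 := hz σ σ
    rw [(hu σ).inv] at h1
    have h2 : LinearMap.trace W.K (W.H (power ops P s).X) 1 = ((b.N ^ (s + 1) : ℕ) : W.K) := by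
      have h3 := LinearMap.trace_one W.K (W.H (power ops P s).X)
      rw [h3, finrank_power, Module.finrank_eq_card_basis b.e, Fintype.card_fin]
    rw [h2] at h1
    have h3 : ((b.N ^ (s + 1) : ℕ) : ℤ) = z σ σ := by exact_mod_cast h1
    beta_reduce
    rw [← h3]
    push_cast
    rfl
  · intro σ τ
    have := hzb σ τ
    beta_reduce
    exact_mod_cast this

/-- The number of signs of all primitive classes. -/
noncomputable def tot (W : WeilCohomology.{u, v} ops) (P : Polarized 𝒱) : ℕ :=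
  ∑ n ∈ range (P.X.dim / 2 + 1), (signs W P.X P.D n 1 + signs W P.X P.D n (-1))

lemma tot_eqv {P Q : Polarized 𝒱} (h : Eqv W P Q) (hP : P.X.IsCyc 1 P.D)
    (hQ : Q.X.IsCyc 1 Q.D) : tot W P = tot W Q := by
  have hd := h.1.dim
  rw [tot, tot, hd]
  apply Finset.sum_congr rfl
  intro n hn
  rw [Finset.mem_range] at hn
  rw [h.signs_eq hP hQ (by omega), h.signs_eq hP hQ (by omega)]

/-- The rank in one weight is at most the number of signs. -/
lemma card_le_tot {Q : Polarized 𝒱} {g : Module.End W.K (W.H Q.X)} (F : Fr W Q.X Q.D g)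
    {m : ℤ} {n R : ℕ}
    (h : ∀ (ι : Type) [Fintype ι] (y : ι → W.H Q.X) (s : ι → ℚ),
      MF (bf W Q.X Q.D g) (AW W Q.X m) y s → R ^ (2 * n) ≤ Fintype.card ι * (n + 1) ^ (R * R)) :
    R ^ (2 * n) ≤ tot W Q * (n + 1) ^ (R * R) := by
  obtain ⟨ι, _, y, s, hy, -, hc⟩ := exists_fam2 F m
  have h1 := h ι y s hy
  have h2 := wsum_le Q.X.dim (fun n => signs W Q.X Q.D n 1 + signs W Q.X Q.D n (-1)) m
  rw [← hc] at h2
  have h3 : Fintype.card ι ≤ tot W Q := by
    rw [tot]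
    exact_mod_cast h2
  exact h1.trans (Nat.mul_le_mul_right _ h3)

lemma wt_ext {X Y : 𝒱.Obj} {m m' : ℤ} {a : W.H X} {c : W.H Y} (h : AW W X m a)
    (h' : AW W Y m' c) : AW W (X.prod Y) (m + m') (ext W a c) := by
  refine ⟨h.1.ext h'.1, ?_⟩
  rw [wt_prod, H281R3.HT.ext, extSum_tmul, h.2, h'.2, map_smul, map_smul,
    smul_mul_assoc, mul_smul_comm, ← add_smul]
  congr 1
  push_cast
  ring

lemma aw_one (X : 𝒱.Obj) : AW W X (-(X.dim : ℤ)) (1 : W.H X) := by
  refine ⟨AS.one, ?_⟩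
  rw [Fr.wt_gr (W.one_mem X)]
  congr 1
  push_cast
  ring

/-- The lower bound on a product, given classes with the Gram matrix of the permutations. -/
lemma lower_gen {V Q : Polarized 𝒱} {fV : Module.End W.K (W.H V.X)}
    {fQ : Module.End W.K (W.H Q.X)} (GV : Gp W V.X V.D fV) (GQ : Gp W Q.X Q.D fQ)
    (hpos : 0 < Q.X.V.degCycle (divPow ops Q.D Q.X.dim Q.X.V.fundCycle)) {n R : ℕ} {c : ℚ}
    (hc : c ≠ 0) {m : ℤ} {x : Equiv.Perm (Fin n) → W.H V.X} (hx : ∀ σ, AW W V.X m (x σ))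
    {g : Equiv.Perm (Fin n) → Equiv.Perm (Fin n) → ℚ}
    (hg : ∀ σ τ, bf W V.X V.D fV (x σ) (x τ) = ((c * g σ τ : ℚ) : W.K))
    (hd : ∀ σ, g σ σ = (R : ℚ) ^ n)
    (hb : ∀ σ τ, |g σ τ| ≤
      ((univ.filter fun x : Fin n → Fin R => x ∘ ⇑(τ * σ⁻¹) = x).card : ℚ)) :
    R ^ (2 * n) ≤ tot W (V.prod ops Q) * (n + 1) ^ (R * R) := by
  obtain ⟨c', hc', hcc⟩ := (pos_iff GQ.fr).1 hpos
  have G := GV.prod GQ
  refine card_le_tot (Q := V.prod ops Q) G.fr (m := m + -(Q.X.dim : ℤ)) ?_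
  intro ι _ y t hy
  refine gram_bound (c := c * c') (mul_ne_zero hc hc'.ne') (rq_AW G.fr G.gd.sy _) hy
    (x := fun σ => ext W (x σ) (1 : W.H Q.X)) (fun σ => wt_ext (hx σ) (aw_one Q.X)) (g := g)
    ?_ hd hb
  intro σ τ
  have h2 := GV.fr.bf_ext GQ.fr (x σ) (x τ) 1 1
  rw [hcc, hg, ← Rat.cast_mul] at h2
  rw [show c * c' * g σ τ = c * g σ τ * c' by ring]
  exact h2

/-- **The lower bound on the products with the even powers.** -/
theorem lower_even (G : Gp W P.X P.D f) {Q : Polarized 𝒱} {fQ : Module.End W.K (W.H Q.X)}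
    (GQ : Gp W Q.X Q.D fQ)
    (hQ : 0 < Q.X.V.degCycle (divPow ops Q.D Q.X.dim Q.X.V.fundCycle)) (s : ℕ) :
    Module.finrank W.K (W.H P.X) ^ (2 * (s + 1)) ≤
      tot W ((power ops P (2 * s + 1)).prod ops Q) *
      (s + 2) ^ (Module.finrank W.K (W.H P.X) * Module.finrank W.K (W.H P.X)) := by
  obtain ⟨b⟩ := exists_HB W P.X
  have hN : Module.finrank W.K (W.H P.X) = b.N := by
    rw [Module.finrank_eq_card_basis b.e, Fintype.card_fin]
  have GT := gp_frm G s
  have G2 := GT.prod GT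
  obtain ⟨x, g, hx, hg, hd, hb⟩ := exists_classes G b s
  have h1 : b.N ^ (2 * (s + 1)) ≤
      tot W (((power ops P s).prod ops (power ops P s)).prod ops Q) *
      (s + 1 + 1) ^ (b.N * b.N) := by
    refine lower_gen (V := (power ops P s).prod ops (power ops P s)) G2 GQ hQ one_ne_zero hx
      (g := g) ?_ hd hb
    intro σ τ
    rw [one_mul]
    exact hg σ τ
  have h2 : tot W (((power ops P s).prod ops (power ops P s)).prod ops Q) =
      tot W ((power ops P (2 * s + 1)).prod ops Q) := by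
    rw [show 2 * s + 1 = s + s + 1 by ring]
    exact tot_eqv ((power_add W P s s).prod (Eqv.refl Q)) (G2.prod GQ).fr.hD
      ((gp_frm G (s + s + 1)).prod GQ).fr.hD
  rw [hN, ← h2]
  exact h1

/-- **The lower bound on the products with the odd powers.** -/
theorem lower_odd (G : Gp W P.X P.D f)
    (hpos : 0 < P.X.V.degCycle (divPow ops P.D P.X.dim P.X.V.fundCycle)) {Q : Polarized 𝒱}
    {fQ : Module.End W.K (W.H Q.X)} (GQ : Gp W Q.X Q.D fQ)
    (hQ : 0 < Q.X.V.degCycle (divPow ops Q.D Q.X.dim Q.X.V.fundCycle)) (s : ℕ) :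
    Module.finrank W.K (W.H P.X) ^ (2 * (s + 1)) ≤
      tot W ((power ops P (2 * s + 2)).prod ops Q) *
      (s + 2) ^ (Module.finrank W.K (W.H P.X) * Module.finrank W.K (W.H P.X)) := by
  obtain ⟨b⟩ := exists_HB W P.X
  have hN : Module.finrank W.K (W.H P.X) = b.N := by
    rw [Module.finrank_eq_card_basis b.e, Fintype.card_fin]
  have GT := gp_frm G s
  have G2 := GT.prod GT
  have G3 := G.prod G2
  obtain ⟨x, g, hx, hg, hd, hb⟩ := exists_classes G b s
  obtain ⟨c, hc, hc'⟩ := (pos_iff G.fr).1 hpos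
  have h1 : b.N ^ (2 * (s + 1)) ≤
      tot W ((P.prod ops ((power ops P s).prod ops (power ops P s))).prod ops Q) *
      (s + 1 + 1) ^ (b.N * b.N) := by
    refine lower_gen (V := P.prod ops ((power ops P s).prod ops (power ops P s))) G3 GQ hQ
      hc.ne' (x := fun σ => ext W (1 : W.H P.X) (x σ))
      (fun σ => wt_ext (aw_one P.X) (hx σ)) (g := g) ?_ hd hb
    intro σ τ
    have h2 := G.fr.bf_ext G2.fr 1 1 (x σ) (x τ)
    rw [hc', hg, ← Rat.cast_mul] at h2
    exact h2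
  have h2 : tot W ((P.prod ops ((power ops P s).prod ops (power ops P s))).prod ops Q) =
      tot W ((power ops P (2 * s + 2)).prod ops Q) := by
    rw [show 2 * s + 2 = (s + s + 1) + 1 by ring]
    exact tot_eqv (((Eqv.refl P).prod (power_add W P s s)).prod (Eqv.refl Q))
      (G3.prod GQ).fr.hD ((gp_frm G (s + s + 1 + 1)).prod GQ).fr.hD
  rw [hN, ← h2]
  exact h1

end Pool.Agent.Y97
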