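import Pool.Agent.W539.Ker.Ops
import Pool.Agent.Y97.Gram2

/-!
# Reductions of the signature of the algebraic classes
-/

open CategoryTheory AlgebraicGeometry Finset
open scoped TensorProduct

universe u v

namespace Pool.Agent.Y97

open Pool.Agent.H914 Pool.Agent.H914.VarClass Pool.Agent.H914.VarClass.Obj
  Pool.Agent.H914.WeilCohomology Pool.Agent.H281R3.HT Pool.Agent.W552 Pool.Agent.W539.Ker

variable {k : Type u} [Field k] {𝒱 : VarClass k} {ops : CycleOps 𝒱}
  {W : WeilCohomology.{u, v} ops} {X Y : 𝒱.Obj} {D : X.Cycles} {f : Module.End W.K (W.H X)}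
  {E : Y.Cycles} {g : Module.End W.K (W.H Y)}

/-- The algebraic classes of weight `m`. -/
def AW (W : WeilCohomology.{u, v} ops) (X : 𝒱.Obj) (m : ℤ) (u : W.H X) : Prop :=
  AS W X u ∧ wt (W.isInternal X) X.dim u = (m : W.K) • u

lemma bf_symm_AS (S : Sy W X D f) (x : W.H X) {y : W.H X} (hy : AS W X y) :
    bf W X D f x y = bf W X D f y x := by
  refine AS.ind (p := fun y => bf W X D f x y = bf W X D f y x) ?_ ?_ hy
  swap
  · intro a b ha hb
    rw [map_add, ha, hb, map_add, LinearMap.add_apply]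
  intro i y hy
  rw [S x y, par, scal_apply _ _ (alg_gr hy), pow_mul]
  simp

lemma rq_AW (F : Fr W X D f) (S : Sy W X D f) (m : ℤ) : RQ (bf W X D f) (AW W X m) := by
  refine ⟨⟨⟨AS.zero, by rw [map_zero, smul_zero]⟩, ?_, ?_⟩, fun hx hy => F.bf_rat hx.1 hy.1,
    fun {x y} _ hy => bf_symm_AS S x hy.1⟩
  · rintro x y ⟨hx, hx'⟩ ⟨hy, hy'⟩
    exact ⟨hx.add hy, by rw [map_add, hx', hy', smul_add]⟩
  · rintro q x ⟨hx, hx'⟩
    exact ⟨hx.smul q, by rw [map_smul, hx', smul_comm]⟩

lemma AW.map {θ : Module.End W.K (W.H X)} (h : AOp W X X θ)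
    (hc : Commute θ (wt (W.isInternal X) X.dim)) {m : ℤ} {u : W.H X} (hu : AW W X m u) :
    AW W X m (θ u) := by
  refine ⟨h.apply hu.1, ?_⟩
  have h1 := congrArg (fun F => F u) hc.eq
  simp only [Module.End.mul_apply] at h1
  rw [← h1, hu.2, map_smul]

/-- The projectors onto subspaces which carry the signatures. -/
inductive Red (W : WeilCohomology.{u, v} ops) (X : 𝒱.Obj) (D : X.Cycles)
    (f : Module.End W.K (W.H X)) : Module.End W.K (W.H X) → Prop
  | one : Red W X D f 1
  | step {q θ : Module.End W.K (W.H X)} {c : ℚ} : Red W X D f q → 0 < c → AOp W X X θ →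
      (∀ a b, bf W X D f (θ a) b = bf W X D f a (θ b)) →
      Commute θ (wt (W.isInternal X) X.dim) → θ * θ * θ = -((c : W.K) • θ) → Commute θ q →
      Red W X D f ((1 + ((c⁻¹ : ℚ) : W.K) • (θ * θ)) * q)

section Abs

variable {K : Type*} [Field K] [CharZero K] {V : Type*} [AddCommGroup V] [Module K V]

lemma idem_aux {θ : Module.End K V} {c : ℚ} (hc : 0 < c) (h3 : θ * θ * θ = -((c : K) • θ)) :
    (1 + ((c⁻¹ : ℚ) : K) • (θ * θ)) * (1 + ((c⁻¹ : ℚ) : K) • (θ * θ)) =
      1 + ((c⁻¹ : ℚ) : K) • (θ * θ) := by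
  have h4 : (θ * θ) * (θ * θ) = -((c : K) • (θ * θ)) := by
    rw [← mul_assoc, h3, neg_mul, smul_mul_assoc]
  have h5 : ((c⁻¹ : ℚ) : K) * ((c⁻¹ : ℚ) : K) * (c : K) = ((c⁻¹ : ℚ) : K) := by
    rw [mul_assoc, ← Rat.cast_mul, inv_mul_cancel₀ hc.ne', Rat.cast_one, mul_one]
  rw [mul_add, mul_one, add_mul, one_mul, smul_mul_smul_comm, h4, smul_neg, smul_smul, h5]
  abel

lemma kill_aux {θ : Module.End K V} {c : ℚ} (hc : 0 < c) (h3 : θ * θ * θ = -((c : K) • θ)) :
    θ * (1 + ((c⁻¹ : ℚ) : K) • (θ * θ)) = 0 := by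
  rw [mul_add, mul_one, mul_smul_comm, ← mul_assoc, h3, smul_neg, smul_smul, ← Rat.cast_mul,
    inv_mul_cancel₀ hc.ne', Rat.cast_one, one_smul, add_neg_cancel]

end Abs

namespace Red

variable {q : Module.End W.K (W.H X)}

lemma idem (h : Red W X D f q) : q * q = q := by
  induction h with
  | one => rw [one_mul]
  | @step q θ c _ hc _ _ _ h3 hcm ih =>
    have h1 : Commute (1 + ((c⁻¹ : ℚ) : W.K) • (θ * θ)) q :=
      (Commute.one_left q).add_left ((hcm.mul_left hcm).smul_left _)
    calc (1 + ((c⁻¹ : ℚ) : W.K) • (θ * θ)) * q * ((1 + ((c⁻¹ : ℚ) : W.K) • (θ * θ)) * q)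
        = (1 + ((c⁻¹ : ℚ) : W.K) • (θ * θ)) * (q * (1 + ((c⁻¹ : ℚ) : W.K) • (θ * θ))) * q := by
          simp only [mul_assoc]
      _ = (1 + ((c⁻¹ : ℚ) : W.K) • (θ * θ)) * (1 + ((c⁻¹ : ℚ) : W.K) • (θ * θ)) * (q * q) := by
          rw [← h1.eq]; simp only [mul_assoc]
      _ = _ := by rw [idem_aux hc h3, ih]

lemma comm_wt (h : Red W X D f q) : Commute q (wt (W.isInternal X) X.dim) := by
  induction h with
  | one => exact Commute.one_left _
  | step _ _ _ _ hw _ _ ih =>
    exact ((Commute.one_left _).add_left ((hw.mul_left hw).smul_left _)).mul_left ih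

lemma aop (h : Red W X D f q) : AOp W X X q := by
  induction h with
  | one => exact AOp.one
  | step _ _ ha _ _ _ _ ih => exact (AOp.one.add ((ha.mul ha).smul _)).mul ih

/-- The rational structure cut out by the projector. -/
lemma rq (q : Module.End W.K (W.H X)) (F : Fr W X D f) (S : Sy W X D f) (m : ℤ) :
    RQ (bf W X D f) (fun u => AW W X m u ∧ q u = u) := by
  have h1 := rq_AW F S m
  refine ⟨⟨⟨h1.sub.zero, map_zero q⟩, ?_, ?_⟩, fun hx hy => h1.rat hx.1 hy.1,
    fun hx hy => h1.symm hx.1 hy.1⟩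
  · rintro x y ⟨hx, hx'⟩ ⟨hy, hy'⟩
    exact ⟨h1.sub.add hx hy, by rw [map_add, hx', hy']⟩
  · rintro r x ⟨hx, hx'⟩
    exact ⟨h1.sub.smul r hx, by rw [map_smul, hx']⟩

/-- **The signature is carried by the projector.** -/
theorem sig (h : Red W X D f q) (F : Fr W X D f) (S : Sy W X D f) (m : ℤ) {ι ι' : Type}
    [Fintype ι] [Fintype ι']
    {y : ι → W.H X} {s : ι → ℚ} {y' : ι' → W.H X} {s' : ι' → ℚ}
    (h1 : MF (bf W X D f) (AW W X m) y s)
    (h2 : MF (bf W X D f) (fun u => AW W X m u ∧ q u = u) y' s') :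
    ∑ i, ((SignType.sign (s i) : SignType) : ℤ) =
      ∑ i, ((SignType.sign (s' i) : SignType) : ℤ) := by
  induction h generalizing ι' with
  | one =>
    have h3 := h2.congr (p' := AW W X m) (fun u => ⟨fun hu => hu.1, fun hu => ⟨hu, rfl⟩⟩)
    exact (MF.unique (rq_AW F S m) h1 h3).1
  | @step q θ c hq hc ha hsa hw h3 hcm ih =>
    have hidem := hq.idem
    have hR := rq q F S m
    obtain ⟨n, z, t, hz⟩ := exists_MF hR
    have e1 := ih hz
    have hE : Commute (1 + ((c⁻¹ : ℚ) : W.K) • (θ * θ)) q :=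
      (Commute.one_left q).add_left ((hcm.mul_left hcm).smul_left _)
    have h4 := h2.congr (p' := fun u => (AW W X m u ∧ q u = u) ∧ θ u = 0) (by
      intro u
      constructor
      · rintro ⟨hu, hqu⟩
        refine ⟨⟨hu, ?_⟩, ?_⟩
        · have e2 : q * ((1 + ((c⁻¹ : ℚ) : W.K) • (θ * θ)) * q) =
              (1 + ((c⁻¹ : ℚ) : W.K) • (θ * θ)) * q := by
            rw [← mul_assoc, ← hE.eq, mul_assoc, hidem]
          have e3 := congrArg (fun F => F u) e2
          simp only [Module.End.mul_apply] at e3 hqu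
          rw [hqu] at e3
          exact e3
        · have e2 : θ * ((1 + ((c⁻¹ : ℚ) : W.K) • (θ * θ)) * q) = 0 := by
            rw [← mul_assoc, kill_aux hc h3, zero_mul]
          have e3 := congrArg (fun F => F u) e2
          simp only [Module.End.mul_apply, LinearMap.zero_apply] at e3 hqu
          rw [hqu] at e3
          exact e3
      · rintro ⟨⟨hu, hqu⟩, hθ⟩
        refine ⟨hu, ?_⟩
        rw [Module.End.mul_apply, hqu, LinearMap.add_apply, Module.End.one_apply,
          LinearMap.smul_apply, Module.End.mul_apply, hθ, map_zero, smul_zero, add_zero])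
    rw [e1]
    refine MF.reduce hR hc ?_ ?_ ?_ hz h4
    · rintro u ⟨hu, hqu⟩
      refine ⟨hu.map ha hw, ?_⟩
      have e2 := congrArg (fun F => F u) hcm.eq
      simp only [Module.End.mul_apply] at e2
      rw [← e2, hqu]
    · intro u v _ _
      exact hsa u v
    · intro u _
      have e2 := congrArg (fun F => F u) h3
      simpa only [Module.End.mul_apply, LinearMap.neg_apply, LinearMap.smul_apply] using e2

/-- The bound for the signature. -/
theorem bound (h : Red W X D f q) (F : Fr W X D f) (S : Sy W X D f) (m : ℤ) {ι : Type} [Fintype ι]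
    {y : ι → W.H X} {s : ι → ℚ} (h1 : MF (bf W X D f) (AW W X m) y s) :
    |∑ i, ((SignType.sign (s i) : SignType) : ℤ)| ≤
      (Module.finrank W.K (LinearMap.range q) : ℤ) := by
  obtain ⟨n, z, t, hz⟩ := exists_MF (rq q F S m)
  rw [h.sig F S m h1 hz]
  have hli := hz.li
  have hmem : ∀ i, z i ∈ LinearMap.range q := fun i => ⟨z i, (hz.mem i).2⟩
  have hli' : LinearIndependent W.K (fun i => (⟨z i, hmem i⟩ : LinearMap.range q)) :=
    LinearIndependent.of_comp (LinearMap.range q).subtype hli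
  have h3 := hli'.fintype_card_le_finrank
  rw [Fintype.card_fin] at h3
  calc |∑ i, ((SignType.sign (t i) : SignType) : ℤ)| ≤
      ∑ i, |((SignType.sign (t i) : SignType) : ℤ)| := Finset.abs_sum_le_sum_abs _ _
    _ ≤ ∑ i : Fin n, (1 : ℤ) := by
        apply Finset.sum_le_sum
        intro i _
        rcases lt_trichotomy (t i) 0 with h0 | h0 | h0
        · rw [sign_neg h0]; simp
        · rw [h0]; simp
        · rw [sign_pos h0]; simp
    _ = (n : ℤ) := by simp
    _ ≤ _ := by exact_mod_cast h3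

end Red

section Prod

variable (F : Fr W X D f) (F' : Fr W Y E g)

include F F'

/-- The external product of operators and the form. -/
lemma bf_extOp {θ θ' : Module.End W.K (W.H X)} {ψ ψ' : Module.End W.K (W.H Y)}
    (h : ∀ a b, bf W X D f (θ a) b = bf W X D f a (θ' b))
    (h' : ∀ a b, bf W Y E g (ψ a) b = bf W Y E g a (ψ' b)) (c d : W.H (X.prod Y)) :
    bf W (X.prod Y) (ops.pull (fst X Y) D + ops.pull (snd X Y) E) (extSum W f g)
      (extOp W θ ψ c) d = bf W (X.prod Y) (ops.pull (fst X Y) D + ops.pull (snd X Y) E)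
        (extSum W f g) c (extOp W θ' ψ' d) := by
  refine W.kunneth_induction (p := fun c => bf W (X.prod Y)
    (ops.pull (fst X Y) D + ops.pull (snd X Y) E) (extSum W f g)
      (extOp W θ ψ c) d = bf W (X.prod Y) (ops.pull (fst X Y) D + ops.pull (snd X Y) E)
        (extSum W f g) c (extOp W θ' ψ' d)) ?_ ?_ c
  · intro a b ha hb
    rw [map_add, map_add, LinearMap.add_apply, ha, hb, map_add, LinearMap.add_apply]
  intro i j a _ b _
  refine W.kunneth_induction (p := fun d => bf W (X.prod Y)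
    (ops.pull (fst X Y) D + ops.pull (snd X Y) E) (extSum W f g)
      (extOp W θ ψ (W.map (fst X Y) a * W.map (snd X Y) b)) d = bf W (X.prod Y)
        (ops.pull (fst X Y) D + ops.pull (snd X Y) E)
        (extSum W f g) (W.map (fst X Y) a * W.map (snd X Y) b) (extOp W θ' ψ' d)) ?_ ?_ d
  · intro a b ha hb
    rw [map_add, ha, hb, map_add, map_add]
  intro i' j' a' _ b' _
  rw [extOp_tmul, extOp_tmul]
  have e1 := F.bf_ext F' (θ a) a' (ψ b) b'
  have e2 := F.bf_ext F' a (θ' a') b (ψ' b')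
  rw [H281R3.HT.ext, H281R3.HT.ext] at e1 e2
  rw [e1, e2, h, h']

omit F F' in
lemma comm_extOp {θ : Module.End W.K (W.H X)} {ψ : Module.End W.K (W.H Y)}
    (h : Commute θ (wt (W.isInternal X) X.dim)) (h' : Commute ψ (wt (W.isInternal Y) Y.dim)) :
    Commute (extOp W θ ψ) (wt (W.isInternal (X.prod Y)) (X.prod Y).dim) := by
  rw [wt_prod, extSum]
  apply Commute.add_right
  · change extOp W θ ψ * extOp W (wt (W.isInternal X) X.dim) 1 =
      extOp W (wt (W.isInternal X) X.dim) 1 * extOp W θ ψ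
    rw [extOp_mul, extOp_mul, h.eq, mul_one, one_mul]
  · change extOp W θ ψ * extOp W 1 (wt (W.isInternal Y) Y.dim) =
      extOp W 1 (wt (W.isInternal Y) Y.dim) * extOp W θ ψ
    rw [extOp_mul, extOp_mul, h'.eq, mul_one, one_mul]

omit F F' in
lemma extOp_aux_right {ψ : Module.End W.K (W.H Y)} (c : W.K) :
    extOp W (1 : Module.End W.K (W.H X)) (1 + c • (ψ * ψ)) =
      1 + c • (extOp W (1 : Module.End W.K (W.H X)) ψ * extOp W 1 ψ) := by
  rw [extOp_add_right, extOp_one, extOp_smul_right, extOp_mul, one_mul]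

omit F F' in
lemma extOp_aux_left {θ : Module.End W.K (W.H X)} (c : W.K) :
    extOp W (1 + c • (θ * θ)) (1 : Module.End W.K (W.H Y)) =
      1 + c • (extOp W θ (1 : Module.End W.K (W.H Y)) * extOp W θ 1) := by
  rw [extOp_add_left, extOp_one, extOp_smul_left, extOp_mul, one_mul]

lemma Red.right {q : Module.End W.K (W.H Y)} (h : Red W Y E g q) :
    Red W (X.prod Y) (ops.pull (fst X Y) D + ops.pull (snd X Y) E) (extSum W f g)
      (extOp W 1 q) := by
  induction h with
  | one => rw [extOp_one]; exact Red.one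
  | @step q θ c _ hc ha hsa hw h3 hcm ih =>
    have e1 : extOp W (1 : Module.End W.K (W.H X)) ((1 + ((c⁻¹ : ℚ) : W.K) • (θ * θ)) * q) =
        (1 + ((c⁻¹ : ℚ) : W.K) • (extOp W (1 : Module.End W.K (W.H X)) θ * extOp W 1 θ)) *
          extOp W 1 q := by
      rw [← extOp_aux_right, extOp_mul, one_mul]
    rw [e1]
    refine Red.step ih hc (AOp.one.ext ha) ?_ (comm_extOp (Commute.one_left _) hw) ?_ ?_
    · exact bf_extOp F F' (fun _ _ => rfl) hsa
    · rw [extOp_mul, extOp_mul, h3, one_mul, one_mul, ← extOp_smul_right]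
      exact map_neg (extR W X Y) _
    · rw [Commute, SemiconjBy, extOp_mul, extOp_mul, hcm.eq]

lemma Red.ext {q : Module.End W.K (W.H X)} {q' : Module.End W.K (W.H Y)} (h : Red W X D f q)
    (h' : Red W Y E g q') :
    Red W (X.prod Y) (ops.pull (fst X Y) D + ops.pull (snd X Y) E) (extSum W f g)
      (extOp W q q') := by
  induction h with
  | one => exact Red.right F F' h'
  | @step q θ c _ hc ha hsa hw h3 hcm ih =>
    have e1 : extOp W ((1 + ((c⁻¹ : ℚ) : W.K) • (θ * θ)) * q) q' =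
        (1 + ((c⁻¹ : ℚ) : W.K) • (extOp W θ (1 : Module.End W.K (W.H Y)) * extOp W θ 1)) *
          extOp W q q' := by
      rw [← extOp_aux_left, extOp_mul, one_mul]
    rw [e1]
    refine Red.step ih hc (ha.ext AOp.one) ?_ (comm_extOp hw (Commute.one_left _)) ?_ ?_
    · exact bf_extOp F F' hsa (fun _ _ => rfl)
    · rw [extOp_mul, extOp_mul, h3, one_mul, one_mul, ← extOp_smul_left]
      exact map_neg (extL W X Y) _
    · rw [Commute, SemiconjBy, extOp_mul, extOp_mul, hcm.eq, mul_one, one_mul]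

end Prod

/-- The rank of an external product. -/
lemma finrank_extOp (q : Module.End W.K (W.H X)) (q' : Module.End W.K (W.H Y)) :
    Module.finrank W.K (LinearMap.range (extOp W q q')) ≤
      Module.finrank W.K (LinearMap.range q) * Module.finrank W.K (LinearMap.range q') := by
  set T : TensorProduct W.K (LinearMap.range q) (LinearMap.range q') →ₗ[W.K] W.H (X.prod Y) :=
    (kappa W X Y).toLinearMap ∘ₗ
      TensorProduct.map (LinearMap.range q).subtype (LinearMap.range q').subtype with hT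
  have h1 : LinearMap.range (extOp W q q') ≤ LinearMap.range T := by
    rintro _ ⟨c, rfl⟩
    refine W.kunneth_induction (p := fun c => extOp W q q' c ∈ LinearMap.range T) ?_ ?_ c
    · intro a b ha hb
      rw [map_add]; exact Submodule.add_mem _ ha hb
    · intro i j a _ b _
      rw [extOp_tmul]
      refine ⟨⟨q a, ⟨a, rfl⟩⟩ ⊗ₜ ⟨q' b, ⟨b, rfl⟩⟩, ?_⟩
      rw [hT, LinearMap.comp_apply, TensorProduct.map_tmul]
      exact kappa_tmul _ _
  calc Module.finrank W.K (LinearMap.range (extOp W q q'))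
      ≤ Module.finrank W.K (LinearMap.range T) := Submodule.finrank_mono h1
    _ ≤ Module.finrank W.K (TensorProduct W.K (LinearMap.range q) (LinearMap.range q')) :=
        LinearMap.finrank_range_le T
    _ = _ := Module.finrank_tensorProduct

end Pool.Agent.Y97
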