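import Pool.Agent.W552.RatBasis
import Pool.Agent.W539.Ker.Inertia

/-!
# Signatures of rational structures, and operators which make them vanish
-/

open Finset

universe u v w w'

namespace Pool.Agent.Y97

open Pool.Agent.W552 Pool.Agent.W539.Ker

variable {K : Type u} [Field K] [CharZero K] {V : Type v} [AddCommGroup V] [Module K V]

/-- A rational structure on which the form is rational and symmetric. -/
structure RQ (b : V →ₗ[K] V →ₗ[K] K) (p : V → Prop) : Prop where
  sub : RatSub K p
  rat : ∀ {x y}, p x → p y → ∃ q : ℚ, b x y = q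
  symm : ∀ {x y}, p x → p y → b x y = b y x

/-- A maximal orthogonal family of anisotropic vectors in the rational structure. -/
structure MF (b : V →ₗ[K] V →ₗ[K] K) (p : V → Prop) {ι : Type*} (y : ι → V) (s : ι → ℚ) :
    Prop where
  mem : ∀ i, p (y i)
  ne : ∀ i, s i ≠ 0
  self : ∀ i, b (y i) (y i) = (s i : K)
  orth : ∀ i j, i ≠ j → b (y i) (y j) = 0
  max : ∀ u, p u → (∀ i, b u (y i) = 0) → b u u = 0

variable {b : V →ₗ[K] V →ₗ[K] K} {p : V → Prop}

/-- A model over the rationals. -/
lemma RQ.model (h : RQ b p) : ∃ (M : Type v) (_ : AddCommGroup M) (_ : Module ℚ M) (j : M → V)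
    (B : M →ₗ[ℚ] M →ₗ[ℚ] ℚ), (∀ x, p (j x)) ∧ (∀ u, p u → ∃ x, j x = u) ∧
      (∀ x y, b (j x) (j y) = ((B x y : ℚ) : K)) ∧ ∀ x y, B x y = B y x := by
  let _ : Module ℚ V := Module.compHom V (algebraMap ℚ K)
  let M : Submodule ℚ V :=
    { carrier := {u | p u}
      add_mem' := fun ha hb => h.sub.add ha hb
      zero_mem' := h.sub.zero
      smul_mem' := fun q x hx => h.sub.smul q hx }
  have hsm : ∀ (q : ℚ) (x : M), ((q • x : M) : V) = (q : K) • (x : V) := fun q x => rfl
  choose β hβ using fun (x y : M) => h.rat (x := (x : V)) (y := (y : V)) x.2 y.2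
  let B : M →ₗ[ℚ] M →ₗ[ℚ] ℚ := LinearMap.mk₂ ℚ β
    (fun x y z => by
      have h1 : ((β (x + y) z : ℚ) : K) = ((β x z + β y z : ℚ) : K) := by
        rw [Rat.cast_add, ← hβ, ← hβ, ← hβ, Submodule.coe_add, map_add, LinearMap.add_apply]
      exact_mod_cast h1)
    (fun q x z => by
      have h1 : ((β (q • x) z : ℚ) : K) = ((q * β x z : ℚ) : K) := by
        rw [Rat.cast_mul, ← hβ, ← hβ, hsm, map_smul, LinearMap.smul_apply, smul_eq_mul]
      exact_mod_cast h1)
    (fun x y z => by
      have h1 : ((β x (y + z) : ℚ) : K) = ((β x y + β x z : ℚ) : K) := by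
        rw [Rat.cast_add, ← hβ, ← hβ, ← hβ, Submodule.coe_add, map_add]
      exact_mod_cast h1)
    (fun q x z => by
      have h1 : ((β x (q • z) : ℚ) : K) = ((q * β x z : ℚ) : K) := by
        rw [Rat.cast_mul, ← hβ, ← hβ, hsm, map_smul, smul_eq_mul]
      exact_mod_cast h1)
  refine ⟨M, inferInstance, inferInstance, fun x => x, B, fun x => x.2, fun u hu => ⟨⟨u, hu⟩, rfl⟩,
    hβ, ?_⟩
  intro x y
  have h1 : ((β x y : ℚ) : K) = ((β y x : ℚ) : K) := by
    rw [← hβ, ← hβ, h.symm x.2 y.2]
  exact_mod_cast h1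

omit [CharZero K] in
lemma RQ.congr {p' : V → Prop} (h : RQ b p) (hp : ∀ u, p u ↔ p' u) : RQ b p' := by
  have : p = p' := funext fun u => propext (hp u)
  rwa [← this]

omit [CharZero K] in
lemma MF.congr {p' : V → Prop} {ι : Type*} {y : ι → V} {s : ι → ℚ} (h : MF b p y s)
    (hp : ∀ u, p u ↔ p' u) : MF b p' y s := by
  have : p = p' := funext fun u => propext (hp u)
  rwa [← this]

/-- A maximal family in the model. -/
lemma MF.om {M : Type v} [AddCommGroup M] [Module ℚ M] {j : M → V} {B : M →ₗ[ℚ] M →ₗ[ℚ] ℚ}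
    (hj : ∀ x, p (j x)) (hj' : ∀ u, p u → ∃ x, j x = u)
    (hB : ∀ x y, b (j x) (j y) = ((B x y : ℚ) : K)) {κ : Type w} {z : κ → V} {t : κ → ℚ}
    (hz : MF b p z t) : ∃ x : κ → M, OM B x ∧ ∀ i, B (x i) (x i) = t i := by
  choose x hx using fun i => hj' (z i) (hz.mem i)
  have hs : ∀ i, B (x i) (x i) = t i := by
    intro i
    have h3 := hz.self i
    rw [← hx, hB] at h3
    exact_mod_cast h3
  refine ⟨x, ⟨fun i => by rw [hs]; exact hz.ne i, ?_, ?_⟩, hs⟩
  · intro i k hik
    have h3 := hz.orth i k hik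
    rw [← hx, ← hx, hB] at h3
    exact_mod_cast h3
  · intro u hu
    have h3 := hz.max (j u) (hj u) (fun i => by rw [← hx, hB, hu, Rat.cast_zero])
    rw [hB] at h3
    exact_mod_cast h3

/-- The number of elements of a maximal family. -/
lemma om_card {M : Type v} [AddCommGroup M] [Module ℚ M] {B : M →ₗ[ℚ] M →ₗ[ℚ] ℚ}
    (hsymm : ∀ x y, B x y = B y x) {κ : Type w} [Fintype κ] {x : κ → M} (hx : OM B x) :
    Fintype.card κ = posIdx (fun x y => B x y) + posIdx (fun x y => -B x y) := by
  classical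
  have hneg : ∀ x y, (-B) x y = (-B) y x := by
    intro x y
    rw [LinearMap.neg_apply, LinearMap.neg_apply, LinearMap.neg_apply, LinearMap.neg_apply,
      hsymm]
  have e1 := hx.posIdx_eq hsymm
  have e2 := hx.neg.posIdx_eq hneg
  have e0 : (fun x y => (-B) x y) = fun x y => -B x y := rfl
  rw [e0] at e2
  rw [e1, e2, ← Finset.card_univ]
  have e3 : (univ : Finset κ) = (univ.filter fun i => 0 < B (x i) (x i)) ∪
      (univ.filter fun i => 0 < (-B) (x i) (x i)) := by
    ext i
    simp only [mem_univ, mem_union, mem_filter, true_and, LinearMap.neg_apply, neg_pos,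
      true_iff]
    exact (lt_or_gt_of_ne (hx.ne i)).symm
  have e4 : Disjoint (univ.filter fun i => 0 < B (x i) (x i))
      (univ.filter fun i => 0 < (-B) (x i) (x i)) := by
    rw [Finset.disjoint_filter]
    intro i _ hi
    rw [LinearMap.neg_apply, LinearMap.neg_apply, neg_pos]
    exact not_lt.2 hi.le
  conv_lhs => rw [e3]
  exact Finset.card_union_of_disjoint e4

/-- **Uniqueness of the signature and of the rank.** -/
theorem MF.unique (h : RQ b p) {ι : Type w} {ι' : Type w'} [Fintype ι] [Fintype ι'] {y : ι → V}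
    {s : ι → ℚ} {y' : ι' → V} {s' : ι' → ℚ} (h1 : MF b p y s) (h2 : MF b p y' s') :
    ∑ i, ((SignType.sign (s i) : SignType) : ℤ) = ∑ i, ((SignType.sign (s' i) : SignType) : ℤ) ∧
      Fintype.card ι = Fintype.card ι' := by
  classical
  obtain ⟨M, _, _, j, B, hj, hj', hB, hsymm⟩ := h.model
  obtain ⟨x, hx, hxs⟩ := h1.om hj hj' hB
  obtain ⟨x', hx', hxs'⟩ := h2.om hj hj' hB
  constructor
  · have e1 := hx.signature_eq hsymm
    have e2 := hx'.signature_eq hsymm
    simp only [hxs] at e1
    simp only [hxs'] at e2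
    rw [← e1, ← e2]
  · rw [om_card hsymm hx, om_card hsymm hx']

/-- A maximal family is linearly independent. -/
lemma MF.li {ι : Type*} [Fintype ι] {y : ι → V} {s : ι → ℚ} (h : MF b p y s) :
    LinearIndependent K y := by
  rw [Fintype.linearIndependent_iff]
  intro g hg i
  have h3 := congrArg (fun a => b a (y i)) hg
  simp only [map_sum, map_zero, LinearMap.sum_apply, LinearMap.zero_apply, map_smul,
    LinearMap.smul_apply, smul_eq_mul] at h3
  rw [Finset.sum_eq_single i] at h3
  · rw [h.self i] at h3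
    rcases mul_eq_zero.1 h3 with h4 | h4
    · exact h4
    · exact absurd (by exact_mod_cast h4) (h.ne i)
  · intro j _ hj
    rw [h.orth j i hj, mul_zero]
  · intro h0; exact absurd (Finset.mem_univ _) h0

/-- Existence of maximal families. -/
theorem exists_MF [Module.Finite K V] (h : RQ b p) : ∃ (m : ℕ) (y : Fin m → V) (s : Fin m → ℚ),
    MF b p y s := by
  obtain ⟨M, _, _, j, B, hj, hj', hB, hsymm⟩ := h.model
  obtain ⟨m, x, hx⟩ := exists_OM hsymm (N := Module.finrank K V) (by
    intro m x h1 h2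
    have hli : LinearIndependent K (fun i => j (x i)) := by
      rw [Fintype.linearIndependent_iff]
      intro g hg i
      have h3 := congrArg (fun a => b a (j (x i))) hg
      simp only [map_sum, map_zero, LinearMap.sum_apply, LinearMap.zero_apply, map_smul,
        LinearMap.smul_apply, smul_eq_mul] at h3
      rw [Finset.sum_eq_single i] at h3
      · rw [hB] at h3
        rcases mul_eq_zero.1 h3 with h4 | h4
        · exact h4
        · exact absurd (by exact_mod_cast h4) (h1 i)
      · intro k _ hk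
        rw [hB, h2 k i hk, Rat.cast_zero, mul_zero]
      · intro h0; exact absurd (Finset.mem_univ _) h0
    have := hli.fintype_card_le_finrank
    rwa [Fintype.card_fin] at this)
  refine ⟨m, fun i => j (x i), fun i => B (x i) (x i), fun i => hj _, hx.ne, fun i => hB _ _, ?_,
    ?_⟩
  · intro i k hik
    rw [hB, hx.orth i k hik, Rat.cast_zero]
  · intro u hu hui
    obtain ⟨w, rfl⟩ := hj' u hu
    rw [hB, hx.max w (fun i => ?_), Rat.cast_zero]
    have := hui i
    rw [hB] at this
    exact_mod_cast this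

/-- **The signature is concentrated on the kernel of an operator whose square is negative.** -/
theorem MF.reduce [Module.Finite K V] (h : RQ b p) {θ : Module.End K V} {c : ℚ} (hc : 0 < c)
    (hθp : ∀ u, p u → p (θ u)) (hsa : ∀ u v, p u → p v → b (θ u) v = b u (θ v))
    (h3 : ∀ u, p u → θ (θ (θ u)) = -((c : K) • θ u)) {ι ι' : Type*} [Fintype ι] [Fintype ι']
    {y : ι → V} {s : ι → ℚ} {y' : ι' → V} {s' : ι' → ℚ} (h1 : MF b p y s)
    (h2 : MF b (fun u => p u ∧ θ u = 0) y' s') :
    ∑ i, ((SignType.sign (s i) : SignType) : ℤ) =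
      ∑ i, ((SignType.sign (s' i) : SignType) : ℤ) := by
  classical
  have hcK : (c : K) ≠ 0 := by exact_mod_cast hc.ne'
  set N : V → Prop := fun u => ∃ v, p v ∧ θ v = u with hN
  have hNp : ∀ {u}, N u → p u := by
    rintro u ⟨v, hv, rfl⟩; exact hθp v hv
  have hNθ : ∀ {u}, N u → N (θ u) := by
    rintro u ⟨v, hv, rfl⟩; exact ⟨θ v, hθp v hv, rfl⟩
  have hNsq : ∀ {u}, N u → θ (θ u) = -((c : K) • u) := by
    rintro u ⟨v, hv, rfl⟩
    exact h3 v hv
  have hRN : RQ b N := by
    refine ⟨⟨⟨0, h.sub.zero, map_zero θ⟩, ?_, ?_⟩, fun hx hy => h.rat (hNp hx) (hNp hy),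
      fun hx hy => h.symm (hNp hx) (hNp hy)⟩
    · rintro _ _ ⟨x, hx, rfl⟩ ⟨x', hx', rfl⟩
      exact ⟨x + x', h.sub.add hx hx', map_add θ _ _⟩
    · rintro q _ ⟨x, hx, rfl⟩
      exact ⟨(q : K) • x, h.sub.smul q hx, map_smul θ _ _⟩
  obtain ⟨m, z, t, hz⟩ := exists_MF hRN
  -- the two families together
  have hcomb : MF b p (Sum.elim y' z) (Sum.elim s' t) := by
    refine ⟨?_, ?_, ?_, ?_, ?_⟩
    · rintro (i | i)
      · exact (h2.mem i).1
      · exact hNp (hz.mem i)
    · rintro (i | i)
      · exact h2.ne i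
      · exact hz.ne i
    · rintro (i | i)
      · exact h2.self i
      · exact hz.self i
    · have hmix : ∀ i k, b (y' i) (z k) = 0 := by
        intro i k
        obtain ⟨v, hv, hvz⟩ := hz.mem k
        rw [← hvz, ← hsa _ _ (h2.mem i).1 hv, (h2.mem i).2, map_zero, LinearMap.zero_apply]
      rintro (i | i) (k | k) hik
      · exact h2.orth i k (fun e => hik (by rw [e]))
      · exact hmix i k
      · change b (z i) (y' k) = 0
        rw [h.symm (hNp (hz.mem i)) (h2.mem k).1]
        exact hmix k i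
      · exact hz.orth i k (fun e => hik (by rw [e]))
    · intro u hu hall
      set u₂ : V := -((c⁻¹ : ℚ) : K) • θ (θ u) with hu₂
      set u₁ : V := u - u₂ with hu₁
      have hpu₂ : N u₂ := by
        refine ⟨-((c⁻¹ : ℚ) : K) • θ u, ?_, by rw [map_smul, hu₂]⟩
        have := h.sub.smul (-c⁻¹) (hθp u hu)
        rwa [Rat.cast_neg] at this
      have hpu₁ : p u₁ := h.sub.sub hu (hNp hpu₂)
      have hθu₁ : θ u₁ = 0 := by
        rw [hu₁, map_sub, hu₂, map_smul, h3 u hu, smul_neg, smul_smul, neg_mul, ← Rat.cast_mul,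
          inv_mul_cancel₀ hc.ne', Rat.cast_one, neg_smul, one_smul, neg_neg, sub_self]
      have hsum : u = u₁ + u₂ := by rw [hu₁, sub_add_cancel]
      have horth : b u₁ u₂ = 0 := by
        obtain ⟨v, hv, hvz⟩ := hpu₂
        rw [← hvz, ← hsa _ _ hpu₁ hv, hθu₁, map_zero, LinearMap.zero_apply]
      have horth' : b u₂ u₁ = 0 := by rw [h.symm (hNp hpu₂) hpu₁]; exact horth
      have e1 : b u₁ u₁ = 0 := by
        apply h2.max u₁ ⟨hpu₁, hθu₁⟩
        intro i
        have h4 := hall (Sum.inl i)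
        rw [hsum, map_add, LinearMap.add_apply] at h4
        have h5 : b u₂ (y' i) = 0 := by
          obtain ⟨v, hv, hvz⟩ := hpu₂
          rw [h.symm (hNp ⟨v, hv, hvz⟩) (h2.mem i).1, ← hvz, ← hsa _ _ (h2.mem i).1 hv,
            (h2.mem i).2, map_zero, LinearMap.zero_apply]
        change b u₁ (y' i) + b u₂ (y' i) = 0 at h4
        rwa [h5, add_zero] at h4
      have e2 : b u₂ u₂ = 0 := by
        apply hz.max u₂ hpu₂
        intro i
        have h4 := hall (Sum.inr i)
        rw [hsum, map_add, LinearMap.add_apply] at h4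
        have h5 : b u₁ (z i) = 0 := by
          obtain ⟨v, hv, hvz⟩ := hz.mem i
          rw [← hvz, ← hsa _ _ hpu₁ hv, hθu₁, map_zero, LinearMap.zero_apply]
        change b u₁ (z i) + b u₂ (z i) = 0 at h4
        rwa [h5, zero_add] at h4
      rw [hsum]
      simp only [map_add, LinearMap.add_apply, e1, e2, horth, horth', add_zero]
  -- the operator reverses the signs
  have hrev : MF b N (fun i => θ (z i)) (fun i => -(c * t i)) := by
    refine ⟨fun i => hNθ (hz.mem i), fun i => ?_, fun i => ?_, ?_, ?_⟩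
    · exact neg_ne_zero.2 (mul_ne_zero hc.ne' (hz.ne i))
    · rw [← hsa _ _ (hNp (hNθ (hz.mem i))) (hNp (hz.mem i)), hNsq (hz.mem i), map_neg, map_smul,
        LinearMap.neg_apply, LinearMap.smul_apply, hz.self, smul_eq_mul]
      push_cast
      ring
    · intro i k hik
      rw [← hsa _ _ (hNp (hNθ (hz.mem i))) (hNp (hz.mem k)), hNsq (hz.mem i), map_neg, map_smul,
        LinearMap.neg_apply, LinearMap.smul_apply, hz.orth i k hik, smul_zero, neg_zero]
    · intro u hu hall
      have e1 : b (θ u) (θ u) = 0 := by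
        apply hz.max _ (hNθ hu)
        intro i
        rw [hsa _ _ (hNp hu) (hNp (hz.mem i))]
        exact hall i
      rw [← hsa _ _ (hNp (hNθ hu)) (hNp hu), hNsq hu, map_neg, map_smul, LinearMap.neg_apply,
        LinearMap.smul_apply, neg_eq_zero, smul_eq_mul] at e1
      exact (mul_eq_zero.1 e1).resolve_left hcK
  have e1 := (MF.unique h h1 hcomb).1
  have e2 := (MF.unique hRN hz hrev).1
  rw [Fintype.sum_sum_type] at e1
  have e3 : ∀ i, ((SignType.sign (-(c * t i)) : SignType) : ℤ) =
      -((SignType.sign (t i) : SignType) : ℤ) := by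
    intro i
    rw [Left.sign_neg, sign_mul, sign_pos hc, one_mul]
    simp
  rw [Finset.sum_congr rfl (fun i _ => e3 i), Finset.sum_neg_distrib] at e2
  have e4 : ∑ i, ((SignType.sign (t i) : SignType) : ℤ) = 0 := by linarith
  rw [e1]
  simp only [Sum.elim_inl, Sum.elim_inr]
  rw [e4, add_zero]

end Pool.Agent.Y97
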