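import Pool.Agent.Y97.Good
import Pool.Agent.Y97.Burnside

/-!
# Permutations of the factors of a power as algebraic operators
-/

open CategoryTheory AlgebraicGeometry Finset

universe u v

namespace Pool.Agent.Y97

open Pool.Agent.H914 Pool.Agent.H914.VarClass Pool.Agent.H914.VarClass.Obj
  Pool.Agent.H914.WeilCohomology Pool.Agent.H281R3.HT Pool.Agent.W552 Pool.Agent.W539.Ker

variable {k : Type u} [Field k] {𝒱 : VarClass k} {ops : CycleOps 𝒱}
  {W : WeilCohomology.{u, v} ops} {X Y Z : 𝒱.Obj} {D : X.Cycles} {f : Module.End W.K (W.H X)}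
  {E : Y.Cycles} {g : Module.End W.K (W.H Y)}

lemma ext_add_left (a a' : W.H X) (b : W.H Y) : ext W (a + a') b = ext W a b + ext W a' b := by
  simp only [H281R3.HT.ext, map_add, add_mul]

lemma ext_add_right (a : W.H X) (b b' : W.H Y) : ext W a (b + b') = ext W a b + ext W a b' := by
  simp only [H281R3.HT.ext, map_add, mul_add]

lemma ext_smul_left (c : W.K) (a : W.H X) (b : W.H Y) : ext W (c • a) b = c • ext W a b := by
  simp only [H281R3.HT.ext, map_smul, smul_mul_assoc]

lemma ext_smul_right (c : W.K) (a : W.H X) (b : W.H Y) : ext W a (c • b) = c • ext W a b := by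
  simp only [H281R3.HT.ext, map_smul, mul_smul_comm]

lemma ext_ind {p : W.H (X.prod Y) → Prop} (hadd : ∀ a b, p a → p b → p (a + b))
    (h : ∀ i j, ∀ a ∈ W.gr X i, ∀ b ∈ W.gr Y j, p (ext W a b)) (c : W.H (X.prod Y)) : p c :=
  W.kunneth_induction (p := p) hadd h c

lemma ext_ind3 {p : W.H (X.prod (Y.prod Z)) → Prop} (hadd : ∀ a b, p a → p b → p (a + b))
    (h : ∀ i j, ∀ a ∈ W.gr X i, ∀ b ∈ W.gr Y j, ∀ c : W.H Z, p (ext W a (ext W b c)))
    (c : W.H (X.prod (Y.prod Z))) : p c := by
  refine ext_ind hadd ?_ c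
  intro i _ a ha bc _
  refine ext_ind (p := fun bc => p (ext W a bc)) ?_ ?_ bc
  · intro x y hx hy
    rw [ext_add_right]; exact hadd _ _ hx hy
  · intro j l b hb c _
    exact h i j a ha b hb c

/-- Interchanging the first two factors. -/
noncomputable def tau (X Y : 𝒱.Obj) : X.prod (X.prod Y) ⟶ X.prod (X.prod Y) :=
  Obj.lift (snd X (X.prod Y) ≫ fst X Y)
    (Obj.lift (fst X (X.prod Y)) (snd X (X.prod Y) ≫ snd X Y))

lemma tau_ext {i j : ℕ} {a b : W.H X} (ha : a ∈ W.gr X i) (hb : b ∈ W.gr X j) (y : W.H Y) :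
    W.map (tau X Y) (ext W a (ext W b y)) = (-1 : W.K) ^ (i * j) • ext W b (ext W a y) := by
  have e1 : tau X Y ≫ fst X (X.prod Y) = snd X (X.prod Y) ≫ fst X Y := Obj.lift_fst _ _
  have e2 : tau X Y ≫ snd X (X.prod Y) =
      Obj.lift (fst X (X.prod Y)) (snd X (X.prod Y) ≫ snd X Y) := Obj.lift_snd _ _
  have e3 : Obj.lift (fst X (X.prod Y)) (snd X (X.prod Y) ≫ snd X Y) ≫ fst X Y =
      fst X (X.prod Y) := Obj.lift_fst _ _
  have e4 : Obj.lift (fst X (X.prod Y)) (snd X (X.prod Y) ≫ snd X Y) ≫ snd X Y =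
      snd X (X.prod Y) ≫ snd X Y := Obj.lift_snd _ _
  simp only [H281R3.HT.ext]
  rw [map_mul (W.map (tau X Y)), ← W.map_comp, ← W.map_comp, e1, e2,
    map_mul (W.map (Obj.lift (fst X (X.prod Y)) (snd X (X.prod Y) ≫ snd X Y))), ← W.map_comp,
    ← W.map_comp, e3, e4, ← mul_assoc, W.comm (W.map_mem _ ha) (W.map_mem _ hb), smul_mul_assoc,
    W.map_comp, W.map_comp, map_mul (W.map (snd X (X.prod Y))), mul_assoc]

lemma swap_ext {i j : ℕ} {a b : W.H X} (ha : a ∈ W.gr X i) (hb : b ∈ W.gr X j) :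
    W.map (swap X X) (ext W a b) = (-1 : W.K) ^ (i * j) • ext W b a := by
  simp only [H281R3.HT.ext]
  rw [map_mul (W.map (swap X X)), ← W.map_comp, ← W.map_comp, swap_fst, swap_snd,
    W.comm (W.map_mem _ ha) (W.map_mem _ hb)]

lemma sq_sign (i j : ℕ) : (-1 : W.K) ^ (i * j) * (-1 : W.K) ^ (j * i) = 1 := by
  rw [mul_comm j i, ← mul_pow]
  simp

lemma tau_tau (A : W.H (X.prod (X.prod Y))) :
    W.map (tau X Y) (W.map (tau X Y) A) = A := by
  refine ext_ind3 (p := fun A => W.map (tau X Y) (W.map (tau X Y) A) = A) ?_ ?_ A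
  · intro a b ha hb
    rw [map_add, map_add, ha, hb]
  · intro i j a ha b hb y
    rw [tau_ext ha hb, map_smul, tau_ext hb ha, smul_smul, sq_sign, one_smul]

lemma map_wt (φ : X ⟶ X) : Commute (W.map φ).toLinearMap (wt (W.isInternal X) X.dim) := by
  apply LinearMap.ext
  intro x
  refine gr_induction (W.isInternal X) (p := fun x =>
    ((W.map φ).toLinearMap * wt (W.isInternal X) X.dim) x =
      (wt (W.isInternal X) X.dim * (W.map φ).toLinearMap) x) ?_ ?_ x
  · intro i x hx
    rw [Module.End.mul_apply, Module.End.mul_apply, Fr.wt_gr hx, map_smul,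
      AlgHom.toLinearMap_apply, Fr.wt_gr (W.map_mem φ hx)]
  · intro a b ha hb
    rw [map_add, map_add, ha, hb]

lemma map_aop (φ : X ⟶ X) : AOp W X X (W.map φ).toLinearMap := AOp.of_rop (rop_map φ)

section Frame

variable (F : Fr W X D f) (G : Fr W Y E g)

include F G

lemma tau_self (A B : W.H (X.prod (X.prod Y))) :
    bf W (X.prod (X.prod Y)) (ops.pull (fst X (X.prod Y)) D + ops.pull (snd X (X.prod Y))
      (ops.pull (fst X Y) D + ops.pull (snd X Y) E)) (extSum W f (extSum W f g))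
      (W.map (tau X Y) A) B =
    bf W (X.prod (X.prod Y)) (ops.pull (fst X (X.prod Y)) D + ops.pull (snd X (X.prod Y))
      (ops.pull (fst X Y) D + ops.pull (snd X Y) E)) (extSum W f (extSum W f g))
      A (W.map (tau X Y) B) := by
  refine ext_ind3 (p := fun A => bf W (X.prod (X.prod Y)) (ops.pull (fst X (X.prod Y)) D +
      ops.pull (snd X (X.prod Y))
      (ops.pull (fst X Y) D + ops.pull (snd X Y) E)) (extSum W f (extSum W f g))
      (W.map (tau X Y) A) B =
    bf W (X.prod (X.prod Y)) (ops.pull (fst X (X.prod Y)) D + ops.pull (snd X (X.prod Y))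
      (ops.pull (fst X Y) D + ops.pull (snd X Y) E)) (extSum W f (extSum W f g))
      A (W.map (tau X Y) B)) ?_ ?_ A
  · intro a b ha hb
    rw [map_add, map_add, LinearMap.add_apply, ha, hb, map_add, LinearMap.add_apply]
  intro i j a ha b hb y
  refine ext_ind3 (p := fun B => bf W (X.prod (X.prod Y)) (ops.pull (fst X (X.prod Y)) D +
      ops.pull (snd X (X.prod Y))
      (ops.pull (fst X Y) D + ops.pull (snd X Y) E)) (extSum W f (extSum W f g))
      (W.map (tau X Y) (ext W a (ext W b y))) B =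
    bf W (X.prod (X.prod Y)) (ops.pull (fst X (X.prod Y)) D + ops.pull (snd X (X.prod Y))
      (ops.pull (fst X Y) D + ops.pull (snd X Y) E)) (extSum W f (extSum W f g))
      (ext W a (ext W b y)) (W.map (tau X Y) B)) ?_ ?_ B
  · intro a b ha hb
    rw [map_add, ha, hb, map_add, map_add]
  intro i' j' a' ha' b' hb' y'
  rw [tau_ext ha hb, tau_ext ha' hb', map_smul, LinearMap.smul_apply, map_smul,
    F.bf_ext (F.prod G), F.bf_ext (F.prod G), F.bf_ext G, F.bf_ext G]
  by_cases h1 : i = j'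
  · by_cases h2 : j = i'
    · rw [h1, h2, mul_comm j' i']
      simp only [smul_eq_mul]
      ring
    · rw [F.bf_deg hb ha' h2]
      simp
  · rw [F.bf_deg ha hb' h1]
    simp

omit G in
lemma swap_self (A B : W.H (X.prod X)) :
    bf W (X.prod X) (ops.pull (fst X X) D + ops.pull (snd X X) D) (extSum W f f)
      (W.map (swap X X) A) B =
    bf W (X.prod X) (ops.pull (fst X X) D + ops.pull (snd X X) D) (extSum W f f)
      A (W.map (swap X X) B) := by
  refine ext_ind (p := fun A => bf W (X.prod X) (ops.pull (fst X X) D + ops.pull (snd X X) D)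
    (extSum W f f) (W.map (swap X X) A) B =
    bf W (X.prod X) (ops.pull (fst X X) D + ops.pull (snd X X) D) (extSum W f f)
      A (W.map (swap X X) B)) ?_ ?_ A
  · intro a b ha hb
    rw [map_add, map_add, LinearMap.add_apply, ha, hb, map_add, LinearMap.add_apply]
  intro i j a ha b hb
  refine ext_ind (p := fun B => bf W (X.prod X) (ops.pull (fst X X) D + ops.pull (snd X X) D)
    (extSum W f f) (W.map (swap X X) (ext W a b)) B =
    bf W (X.prod X) (ops.pull (fst X X) D + ops.pull (snd X X) D) (extSum W f f)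
      (ext W a b) (W.map (swap X X) B)) ?_ ?_ B
  · intro a b ha hb
    rw [map_add, ha, hb, map_add, map_add]
  intro i' j' a' ha' b' hb'
  rw [swap_ext ha hb, swap_ext ha' hb', map_smul, LinearMap.smul_apply, map_smul,
    F.bf_ext F, F.bf_ext F]
  by_cases h1 : i = j'
  · by_cases h2 : j = i'
    · rw [h1, h2, mul_comm j' i']
      simp only [smul_eq_mul]
      ring
    · rw [F.bf_deg hb ha' h2]
      simp
  · rw [F.bf_deg ha hb' h1]
    simp

end Frame

end Pool.Agent.Y97
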