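import Pool.Agent.Y97.Swap

/-!
# The symmetric group acts by algebraic operators
-/

open CategoryTheory AlgebraicGeometry Finset

universe u v

namespace Pool.Agent.Y97

open Pool.Agent.H914 Pool.Agent.H914.VarClass Pool.Agent.H914.VarClass.Obj
  Pool.Agent.H914.WeilCohomology Pool.Agent.H281R3.HT Pool.Agent.W552 Pool.Agent.W539.Ker

variable {k : Type u} [Field k] {𝒱 : VarClass k} {ops : CycleOps 𝒱}
  {W : WeilCohomology.{u, v} ops} {P : Polarized 𝒱}

/-- The frame of a power. -/
noncomputable def frm (W : WeilCohomology.{u, v} ops) (P : Polarized 𝒱)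
    (f : Module.End W.K (W.H P.X)) : (s : ℕ) → Module.End W.K (W.H (power ops P s).X)
  | 0 => f
  | s + 1 => extSum W f (frm W P f s)

lemma gp_frm {f : Module.End W.K (W.H P.X)} (G : Gp W P.X P.D f) (s : ℕ) :
    Gp W (power ops P s).X (power ops P s).D (frm W P f s) := by
  induction s with
  | zero => exact G
  | succ s ih => exact G.prod ih

/-- The basis vectors of the cohomology of a power. -/
noncomputable def vec (b : HB W P.X) : (s : ℕ) → (Fin (s + 1) → Fin b.N) →
    W.H (power ops P s).X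
  | 0, x => b.e (x 0)
  | s + 1, x => ext W (b.e (x 0)) (vec b s (fun i => x i.succ))

lemma vec_succ (b : HB W P.X) (s : ℕ) (x : Fin (s + 2) → Fin b.N) :
    vec b (s + 1) x = ext W (b.e (x 0)) (vec b s (fun i => x i.succ)) := rfl

lemma exists_basis (b : HB W P.X) (s : ℕ) :
    ∃ B : Module.Basis (Fin (s + 1) → Fin b.N) W.K (W.H (power ops P s).X),
      ∀ x, B x = vec b s x := by
  induction s with
  | zero =>
    have h1 : ∃ B : Module.Basis (Fin 1 → Fin b.N) W.K (W.H P.X), ∀ x, B x = b.e (x 0) := by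
      refine ⟨b.e.reindex (Equiv.funUnique (Fin 1) (Fin b.N)).symm, ?_⟩
      intro x
      exact Module.Basis.reindex_apply _ _ _
    exact h1
  | succ s ih =>
    obtain ⟨B, hB⟩ := ih
    have h1 : ∃ B : Module.Basis (Fin (s + 2) → Fin b.N) W.K
        (W.H (P.X.prod (power ops P s).X)),
        ∀ x, B x = ext W (b.e (x 0)) (vec b s (fun i => x i.succ)) := by
      refine ⟨((b.e.tensorProduct B).map (kappa W P.X (power ops P s).X)).reindex
        (Fin.consEquiv (fun _ => Fin b.N)), ?_⟩
      intro x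
      have h1 : (Fin.consEquiv (fun _ : Fin (s + 2) => Fin b.N)).symm x =
          (x 0, fun i => x i.succ) := rfl
      rw [Module.Basis.reindex_apply, Module.Basis.map_apply, ← hB, h1,
        Module.Basis.tensorProduct_apply, kappa_tmul]
      rfl
    exact h1

/-- The operator `u` is algebraic, invertible and an isometry, and acts on the basis as the
permutation `σ` of the factors, up to signs. -/
structure SP (b : HB W P.X) (f : Module.End W.K (W.H P.X)) (s : ℕ)
    (σ : Equiv.Perm (Fin (s + 1))) (u u' : Module.End W.K (W.H (power ops P s).X)) : Prop where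
  aop : AOp W _ _ u
  adj : ∀ a c, bf W (power ops P s).X (power ops P s).D (frm W P f s) (u a) c =
    bf W (power ops P s).X (power ops P s).D (frm W P f s) a (u' c)
  inv : u' * u = 1
  wtc : Commute u (wt (W.isInternal (power ops P s).X) (power ops P s).X.dim)
  act : ∀ x, ∃ ε : ℤˣ, u (vec b s x) = ((ε : ℤ) : W.K) • vec b s (x ∘ σ)
  act' : ∀ x, ∃ ε : ℤˣ, u' (vec b s x) = ((ε : ℤ) : W.K) • vec b s (x ∘ ⇑(σ⁻¹))

variable {b : HB W P.X} {f : Module.End W.K (W.H P.X)}

namespace SP

lemma one (s : ℕ) : SP b f s 1 1 1 where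
  aop := AOp.one
  adj _ _ := rfl
  inv := one_mul 1
  wtc := Commute.one_left _
  act x := ⟨1, by simp⟩
  act' x := ⟨1, by simp⟩

lemma mul {s : ℕ} {σ τ : Equiv.Perm (Fin (s + 1))}
    {u u' v v' : Module.End W.K (W.H (power ops P s).X)} (h : SP b f s σ u u')
    (h' : SP b f s τ v v') : SP b f s (σ * τ) (v * u) (u' * v') where
  aop := h'.aop.mul h.aop
  adj a c := by
    rw [Module.End.mul_apply, Module.End.mul_apply, h'.adj, h.adj]
  inv := by
    rw [mul_assoc, ← mul_assoc v', h'.inv, one_mul, h.inv]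
  wtc := h'.wtc.mul_left h.wtc
  act x := by
    obtain ⟨ε, hε⟩ := h.act x
    obtain ⟨δ, hδ⟩ := h'.act (x ∘ σ)
    refine ⟨ε * δ, ?_⟩
    rw [Module.End.mul_apply, hε, map_smul, hδ, smul_smul]
    push_cast
    rfl
  act' x := by
    obtain ⟨ε, hε⟩ := h'.act' x
    obtain ⟨δ, hδ⟩ := h.act' (x ∘ ⇑(τ⁻¹))
    refine ⟨ε * δ, ?_⟩
    rw [Module.End.mul_apply, hε, map_smul, hδ, smul_smul, mul_inv_rev]
    push_cast
    rfl

/-- A permutation of the last factors. -/
lemma lift (F : Fr W P.X P.D f) {s : ℕ}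
    (F' : Fr W (power ops P s).X (power ops P s).D (frm W P f s)) {σ : Equiv.Perm (Fin (s + 1))}
    {u u' : Module.End W.K (W.H (power ops P s).X)} (h : SP b f s σ u u')
    {τ : Equiv.Perm (Fin (s + 2))} (h0 : τ 0 = 0) (hs : ∀ i, τ i.succ = (σ i).succ) :
    SP b f (s + 1) τ (extOp W (1 : Module.End W.K (W.H P.X)) u)
      (extOp W (1 : Module.End W.K (W.H P.X)) u') where
  aop := AOp.one.ext h.aop
  adj := bf_extOp F F' (fun _ _ => rfl) h.adj
  inv := by
    have h1 : extOp W (1 : Module.End W.K (W.H P.X)) u' *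
        extOp W (1 : Module.End W.K (W.H P.X)) u = 1 := by
      rw [extOp_mul, one_mul, h.inv, extOp_one]
    exact h1
  wtc := comm_extOp (Commute.one_left _) h.wtc
  act x := by
    obtain ⟨ε, hε⟩ := h.act (fun i => x i.succ)
    refine ⟨ε, ?_⟩
    rw [vec_succ, vec_succ]
    have h1 : extOp W (1 : Module.End W.K (W.H P.X)) u
        (ext W (b.e (x 0)) (vec b s (fun i => x i.succ))) =
        ext W (b.e (x 0)) (u (vec b s (fun i => x i.succ))) := extOp_tmul _ _ _ _
    refine h1.trans ?_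
    rw [hε]
    refine (ext_smul_right _ _ _).trans ?_
    have h2 : (fun i : Fin (s + 1) => (x ∘ τ) i.succ) = (fun i => x i.succ) ∘ σ := by
      funext i
      change x (τ i.succ) = x (σ i).succ
      rw [hs]
    rw [h2, Function.comp_apply, h0]
    rfl
  act' x := by
    obtain ⟨ε, hε⟩ := h.act' (fun i => x i.succ)
    refine ⟨ε, ?_⟩
    rw [vec_succ, vec_succ]
    have h1 : extOp W (1 : Module.End W.K (W.H P.X)) u'
        (ext W (b.e (x 0)) (vec b s (fun i => x i.succ))) =
        ext W (b.e (x 0)) (u' (vec b s (fun i => x i.succ))) := extOp_tmul _ _ _ _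
    refine h1.trans ?_
    rw [hε]
    refine (ext_smul_right _ _ _).trans ?_
    have h0' : τ⁻¹ 0 = 0 := by
      rw [Equiv.Perm.inv_eq_iff_eq]; exact h0.symm
    have h2 : (fun i : Fin (s + 1) => (x ∘ ⇑(τ⁻¹)) i.succ) =
        (fun i => x i.succ) ∘ ⇑(σ⁻¹) := by
      funext i
      change x (τ⁻¹ i.succ) = x (σ⁻¹ i).succ
      congr 1
      rw [Equiv.Perm.inv_eq_iff_eq, hs]
      congr 1
      simp
    rw [h2, Function.comp_apply, h0']
    rfl

/-- The transposition of the two factors of `X × X`. -/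
lemma swap_one (F : Fr W P.X P.D f) :
    SP b f 1 (Equiv.swap 0 1) (W.map (H914.swap P.X P.X)).toLinearMap
      (W.map (H914.swap P.X P.X)).toLinearMap where
  aop := map_aop _
  adj := swap_self F
  inv := by
    apply LinearMap.ext
    intro c
    exact swap_swap c
  wtc := map_wt _
  act x := by
    refine ⟨(-1) ^ (b.dg (x 0) * b.dg (x 1)), ?_⟩
    have h1 := swap_ext (W := W) (b.mem (x 0)) (b.mem (x 1))
    refine Eq.trans h1 ?_
    push_cast
    congr 1
  act' x := by
    refine ⟨(-1) ^ (b.dg (x 0) * b.dg (x 1)), ?_⟩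
    have h1 := swap_ext (W := W) (b.mem (x 0)) (b.mem (x 1))
    refine Eq.trans h1 ?_
    push_cast
    congr 1

lemma vec_swap (s : ℕ) (x : Fin (s + 3) → Fin b.N) :
    vec b (s + 2) (x ∘ ⇑(Equiv.swap (0 : Fin (s + 3)) 1)) =
      ext W (b.e (x 1)) (ext W (b.e (x 0)) (vec b s (fun i => x i.succ.succ))) := by
  have e0 : (x ∘ ⇑(Equiv.swap (0 : Fin (s + 3)) 1)) 0 = x 1 := by
    rw [Function.comp_apply, Equiv.swap_apply_left]
  have e1 : (x ∘ ⇑(Equiv.swap (0 : Fin (s + 3)) 1)) (Fin.succ 0) = x 0 := by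
    rw [Function.comp_apply, Fin.succ_zero_eq_one, Equiv.swap_apply_right]
  have e2 : (fun i : Fin (s + 1) => (x ∘ ⇑(Equiv.swap (0 : Fin (s + 3)) 1)) i.succ.succ) =
      fun i => x i.succ.succ := by
    funext i
    rw [Function.comp_apply, Equiv.swap_apply_of_ne_of_ne (Fin.succ_ne_zero _)]
    rw [← Fin.succ_zero_eq_one]
    exact fun h => Fin.succ_ne_zero _ (Fin.succ_injective _ h)
  change ext W (b.e ((x ∘ ⇑(Equiv.swap (0 : Fin (s + 3)) 1)) 0))
    (ext W (b.e ((x ∘ ⇑(Equiv.swap (0 : Fin (s + 3)) 1)) (Fin.succ 0)))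
      (vec b s (fun i => (x ∘ ⇑(Equiv.swap (0 : Fin (s + 3)) 1)) i.succ.succ))) = _
  rw [e0, e1, e2]

/-- The transposition of the first two factors of `X × (X × Y)`. -/
lemma swap_two (F : Fr W P.X P.D f) {s : ℕ}
    (F' : Fr W (power ops P s).X (power ops P s).D (frm W P f s)) :
    SP b f (s + 2) (Equiv.swap 0 1) (W.map (tau P.X (power ops P s).X)).toLinearMap
      (W.map (tau P.X (power ops P s).X)).toLinearMap := by
  have hact : ∀ x : Fin (s + 3) → Fin b.N, ∃ ε : ℤˣ,
      (W.map (tau P.X (power ops P s).X)).toLinearMap (vec b (s + 2) x) =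
        ((ε : ℤ) : W.K) • vec b (s + 2) (x ∘ ⇑(Equiv.swap (0 : Fin (s + 3)) 1)) := by
    intro x
    refine ⟨(-1) ^ (b.dg (x 0) * b.dg (x 1)), ?_⟩
    have h1 := tau_ext (W := W) (b.mem (x 0)) (b.mem (x 1)) (vec b s (fun i => x i.succ.succ))
    refine Eq.trans h1 ?_
    rw [vec_swap]
    push_cast
    rfl
  exact
  { aop := map_aop _
    adj := tau_self F F'
    inv := by
      apply LinearMap.ext
      intro c
      exact tau_tau c
    wtc := map_wt _
    act := hact
    act' := by
      rw [Equiv.swap_inv]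
      exact hact }

/-- The transpositions of neighbouring factors. -/
lemma exists_adj (G : Gp W P.X P.D f) (b : HB W P.X) : ∀ (s : ℕ) (i : Fin s),
    ∃ u u', SP b f s (Equiv.swap i.castSucc i.succ) u u' := by
  intro s
  induction s with
  | zero => intro i; exact i.elim0
  | succ s ih =>
    intro i
    refine Fin.cases ?_ (fun j => ?_) i
    · rcases s with _ | s
      · exact ⟨_, _, swap_one G.fr⟩
      · exact ⟨_, _, swap_two G.fr (gp_frm G s).fr⟩
    · obtain ⟨u, u', h⟩ := ih j
      refine ⟨_, _, h.lift G.fr (gp_frm G s).fr ?_ ?_⟩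
      · apply Equiv.swap_apply_of_ne_of_ne
        · rw [Fin.castSucc_succ]
          exact (Fin.succ_ne_zero _).symm
        · exact (Fin.succ_ne_zero _).symm
      · intro l
        rw [Fin.castSucc_succ]
        exact (Fin.succ_injective _).swap_apply _ _ _

/-- **All permutations of the factors are given by algebraic operators.** -/
theorem exists_SP (G : Gp W P.X P.D f) (b : HB W P.X) (s : ℕ)
    (σ : Equiv.Perm (Fin (s + 1))) : ∃ u u', SP b f s σ u u' := by
  have h1 : σ ∈ Submonoid.closure (Set.range fun i : Fin s => Equiv.swap i.castSucc i.succ) := by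
    rw [Equiv.Perm.mclosure_swap_castSucc_succ]
    exact Submonoid.mem_top _
  induction h1 using Submonoid.closure_induction with
  | mem σ h =>
    obtain ⟨i, rfl⟩ := h
    exact exists_adj G b s i
  | one => exact ⟨1, 1, one s⟩
  | mul σ τ _ _ h h' =>
    obtain ⟨u, u', h⟩ := h
    obtain ⟨v, v', h'⟩ := h'
    exact ⟨_, _, h.mul h'⟩

end SP

/-- The trace of a signed permutation. -/
lemma trace_signed (b : HB W P.X) (s : ℕ) {ρ : Fin (s + 1) → Fin (s + 1)}
    {u : Module.End W.K (W.H (power ops P s).X)}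
    (h : ∀ x, ∃ ε : ℤˣ, u (vec b s x) = ((ε : ℤ) : W.K) • vec b s (x ∘ ρ)) :
    ∃ z : ℤ, LinearMap.trace W.K (W.H (power ops P s).X) u = (z : W.K) ∧
      |z| ≤ ((univ.filter fun x : Fin (s + 1) → Fin b.N => x ∘ ρ = x).card : ℤ) := by
  classical
  obtain ⟨B, hB⟩ := exists_basis b s
  choose ε hε using h
  refine ⟨∑ x ∈ univ.filter (fun x : Fin (s + 1) → Fin b.N => x ∘ ρ = x), (ε x : ℤ), ?_, ?_⟩
  · rw [LinearMap.trace_eq_matrix_trace W.K B, Matrix.trace, Int.cast_sum, Finset.sum_filter]
    apply Finset.sum_congr rfl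
    intro x _
    rw [Matrix.diag_apply, LinearMap.toMatrix_apply, hB, hε, ← hB, map_smul, Finsupp.smul_apply,
      Module.Basis.repr_self, smul_eq_mul]
    by_cases hx : x ∘ ρ = x
    · rw [if_pos hx, hx, Finsupp.single_eq_same, mul_one]
    · rw [if_neg hx, Finsupp.single_eq_of_ne (Ne.symm hx), mul_zero]
  · refine (Finset.abs_sum_le_sum_abs _ _).trans ?_
    rw [Finset.card_eq_sum_ones]
    push_cast
    apply Finset.sum_le_sum
    intro x _
    rcases Int.units_eq_one_or (ε x) with h | h <;> rw [h] <;> simp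

end Pool.Agent.Y97
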