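import Pool.Agent.Y97.Fam

/-!
# The upper bound for the signatures
-/

open CategoryTheory AlgebraicGeometry Finset

universe u v

namespace Pool.Agent.Y97

open Pool.Agent.H914 Pool.Agent.H914.VarClass Pool.Agent.H914.VarClass.Obj
  Pool.Agent.H914.WeilCohomology Pool.Agent.H281R3.HT Pool.Agent.W552 Pool.Agent.W539.Ker

variable {k : Type u} [Field k] {𝒱 : VarClass k} {ops : CycleOps 𝒱}
  {W : WeilCohomology.{u, v} ops} {X Y : 𝒱.Obj} {D : X.Cycles} {f : Module.End W.K (W.H X)}

lemma wsum_diff (d : ℕ) (σ : ℕ → ℤ) {n : ℕ} (hn : 2 * n ≤ d) :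
    wsum d σ ((d : ℤ) - 2 * n) - wsum d σ ((d : ℤ) - 2 * n + 2) = σ n := by
  rw [wsum, wsum, ← Finset.sum_sub_distrib, Finset.sum_eq_single n]
  · rw [if_pos, if_neg, sub_zero]
    · rw [abs_of_nonneg (by omega)]
      omega
    · rw [abs_of_nonneg (by omega)]
      omega
  · intro n' _ hne
    rw [abs_of_nonneg (by omega), abs_of_nonneg (by omega)]
    split_ifs <;> omega
  · intro h
    exact absurd (Finset.mem_range.2 (by omega)) h

lemma wsum_le (d : ℕ) (τ : ℕ → ℕ) (m : ℤ) :
    wsum d (fun n => (τ n : ℤ)) m ≤ ∑ n ∈ range (d / 2 + 1), (τ n : ℤ) := by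
  rw [wsum]
  apply Finset.sum_le_sum
  intro n _
  split_ifs
  · exact le_rfl
  · exact Int.natCast_nonneg _

/-- The dimension of the cohomology of a product. -/
lemma finrank_prod (W : WeilCohomology.{u, v} ops) (X Y : 𝒱.Obj) :
    Module.finrank W.K (W.H (X.prod Y)) =
      Module.finrank W.K (W.H X) * Module.finrank W.K (W.H Y) := by
  rw [← (kappa W X Y).finrank_eq, Module.finrank_tensorProduct]

lemma finrank_power (W : WeilCohomology.{u, v} ops) (P : Polarized 𝒱) (r : ℕ) :
    Module.finrank W.K (W.H (power ops P r).X) = Module.finrank W.K (W.H P.X) ^ (r + 1) := by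
  induction r with
  | zero => rw [zero_add, pow_one]; rfl
  | succ r ih =>
    rw [pow_succ', ← ih]
    exact finrank_prod W P.X (power ops P r).X

lemma dim_power (P : Polarized 𝒱) (r : ℕ) :
    (power ops P r).X.dim = P.X.dim * (r + 1) := by
  induction r with
  | zero => rw [zero_add, mul_one]; rfl
  | succ r ih =>
    change P.X.dim + (power ops P r).X.dim = _
    rw [ih]; ring

/-- The powers have frames. -/
lemma frame_power {P : Polarized 𝒱} {f : Module.End W.K (W.H P.X)} (F : Fr W P.X P.D f)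
    (S : Sy W P.X P.D f) (r : ℕ) :
    ∃ g, Fr W (power ops P r).X (power ops P r).D g ∧
      Sy W (power ops P r).X (power ops P r).D g := by
  induction r with
  | zero => exact ⟨f, F, S⟩
  | succ r ih =>
    obtain ⟨g, G, T⟩ := ih
    exact ⟨extSum W f g, F.prod G, S.prod F G T⟩

/-- **The upper bound on a product with many factors.** -/
theorem blk_bound {Z Y : Polarized 𝒱} {f : Module.End W.K (W.H Z.X)} (F : Fr W Z.X Z.D f)
    (S : Sy W Z.X Z.D f) {g : Module.End W.K (W.H Y.X)} (G : Fr W Y.X Y.D g)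
    (T : Sy W Y.X Y.D g) {q : Module.End W.K (W.H Z.X)} (hq : Red W Z.X Z.D f q) (k : ℕ) :
    ∃ (h : Module.End W.K (W.H (blk ops Z Y k).X)) (q' : Module.End W.K (W.H (blk ops Z Y k).X)),
      Fr W (blk ops Z Y k).X (blk ops Z Y k).D h ∧ Sy W (blk ops Z Y k).X (blk ops Z Y k).D h ∧
      Red W (blk ops Z Y k).X (blk ops Z Y k).D h q' ∧
      Module.finrank W.K (LinearMap.range q') ≤
        Module.finrank W.K (LinearMap.range q) ^ k * Module.finrank W.K (W.H Y.X) := by
  induction k with
  | zero =>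
    refine ⟨g, 1, G, T, Red.one, ?_⟩
    rw [pow_zero, one_mul]
    exact Submodule.finrank_le _
  | succ k ih =>
    obtain ⟨h, q', H, U, hq', hle⟩ := ih
    refine ⟨extSum W f h, extOp W q q', F.prod H, S.prod F H U, Red.ext F H hq hq', ?_⟩
    calc Module.finrank W.K (LinearMap.range (extOp W q q'))
        ≤ Module.finrank W.K (LinearMap.range q) * Module.finrank W.K (LinearMap.range q') :=
          finrank_extOp q q'
      _ ≤ Module.finrank W.K (LinearMap.range q) *
          (Module.finrank W.K (LinearMap.range q) ^ k * Module.finrank W.K (W.H Y.X)) :=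
          Nat.mul_le_mul_left _ hle
      _ = _ := by rw [pow_succ']; ring

lemma sig_bound {h q' : Module.End W.K (W.H X)} (H : Fr W X D h) (U : Sy W X D h)
    (hq' : Red W X D h q') {n : ℕ} (hn : 2 * n ≤ X.dim) :
    |sig W X D n| ≤ 2 * (Module.finrank W.K (LinearMap.range q') : ℤ) := by
  have key : ∀ m : ℤ, |wsum X.dim (sig W X D) m| ≤
      (Module.finrank W.K (LinearMap.range q') : ℤ) := by
    intro m
    obtain ⟨ι, _, y, s, hy, hs, -⟩ := exists_fam2 H m
    rw [← hs]
    exact hq'.bound H U m hy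
  rw [← wsum_diff X.dim (sig W X D) hn]
  calc |wsum X.dim (sig W X D) ((X.dim : ℤ) - 2 * n) -
        wsum X.dim (sig W X D) ((X.dim : ℤ) - 2 * n + 2)|
      ≤ |wsum X.dim (sig W X D) ((X.dim : ℤ) - 2 * n)| +
        |wsum X.dim (sig W X D) ((X.dim : ℤ) - 2 * n + 2)| := abs_sub _ _
    _ ≤ _ := by linarith [key ((X.dim : ℤ) - 2 * n), key ((X.dim : ℤ) - 2 * n + 2)]

lemma blk_eqv' (W : WeilCohomology.{u, v} ops) (P Q : Polarized 𝒱) (m j : ℕ) (k : ℕ) :
    Eqv W (blk ops (power ops P m) ((power ops P j).prod ops Q) k)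
      ((power ops P (k * (m + 1) + j)).prod ops Q) := by
  induction k with
  | zero =>
    rw [Nat.zero_mul, Nat.zero_add]
    exact Eqv.refl _
  | succ k ih =>
    rw [show (k + 1) * (m + 1) + j = m + (k * (m + 1) + j) + 1 by ring]
    exact (((Eqv.refl (power ops P m)).prod ih).trans (Eqv.assoc _ _ _).symm).trans
      ((power_add W P m _).prod (Eqv.refl Q))

/-- **The upper bound for the signatures on the products `X ^ (r + 1) × Y`**, when the standard
conjecture of Hodge type fails on the power `X ^ (m + 1)`. -/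
theorem upper {P Q : Polarized 𝒱} {f : Module.End W.K (W.H P.X)} (F : Fr W P.X P.D f)
    (S : Sy W P.X P.D f) {fQ : Module.End W.K (W.H Q.X)} (FQ : Fr W Q.X Q.D fQ)
    (SQ : Sy W Q.X Q.D fQ) {m : ℕ}
    (hpos : 0 < (power ops P m).X.V.degCycle
      (divPow ops (power ops P m).D (power ops P m).X.dim (power ops P m).X.V.fundCycle))
    (hno : ¬ HodgeNum W (power ops P m).X (power ops P m).D) (k j : ℕ) {n : ℕ}
    (hn : 2 * n ≤ ((power ops P (k * (m + 1) + j)).prod ops Q).X.dim) :
    |(signs W ((power ops P (k * (m + 1) + j)).prod ops Q).X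
        ((power ops P (k * (m + 1) + j)).prod ops Q).D n 1 : ℤ) -
      signs W ((power ops P (k * (m + 1) + j)).prod ops Q).X
        ((power ops P (k * (m + 1) + j)).prod ops Q).D n (-1)| ≤
      2 * (((Module.finrank W.K (W.H P.X) ^ (m + 1) - 2) ^ k *
        (Module.finrank W.K (W.H P.X) ^ (j + 1) * Module.finrank W.K (W.H Q.X)) : ℕ) : ℤ) := by
  obtain ⟨f', F', S'⟩ := frame_power F S m
  obtain ⟨g, G, T⟩ := frame_power F S j
  have GQ := G.prod FQ
  have TQ := T.prod G FQ SQ
  obtain ⟨m', α, β, a, b, hα, hβ, ha, hb, haa, hbb, hab⟩ := exists_pair F' hpos hno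
  obtain ⟨q, hq, hqr⟩ := exists_red F' S' hα hβ ha hb haa hbb hab
  obtain ⟨h, q', H, U, hq', hle⟩ :=
    blk_bound (Y := (power ops P j).prod ops Q) F' S' GQ TQ hq k
  have he := blk_eqv' W P Q m j k
  obtain ⟨g', G', T'⟩ := frame_power F S (k * (m + 1) + j)
  have hD' : ((power ops P (k * (m + 1) + j)).prod ops Q).X.IsCyc 1
      ((power ops P (k * (m + 1) + j)).prod ops Q).D := (G'.prod FQ).hD
  have hd := he.1.dim
  rw [← he.signs_eq H.hD hD' (by omega), ← he.signs_eq H.hD hD' (by omega)]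
  have h1 := sig_bound H U hq' (n := n) (by omega)
  refine h1.trans ?_
  have h2 : Module.finrank W.K (LinearMap.range q') ≤
      (Module.finrank W.K (W.H P.X) ^ (m + 1) - 2) ^ k *
        (Module.finrank W.K (W.H P.X) ^ (j + 1) * Module.finrank W.K (W.H Q.X)) := by
    refine hle.trans ?_
    have h4 : Module.finrank W.K (W.H ((power ops P j).prod ops Q).X) =
        Module.finrank W.K (W.H P.X) ^ (j + 1) * Module.finrank W.K (W.H Q.X) := by
      rw [← finrank_power W P j]
      exact finrank_prod W (power ops P j).X Q.X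
    rw [h4]
    rw [finrank_power] at hqr
    exact Nat.mul_le_mul_right _ (Nat.pow_le_pow_left (by omega) k)
  have h3 : (Module.finrank W.K (LinearMap.range q') : ℤ) ≤
      (((Module.finrank W.K (W.H P.X) ^ (m + 1) - 2) ^ k *
        (Module.finrank W.K (W.H P.X) ^ (j + 1) * Module.finrank W.K (W.H Q.X)) : ℕ) : ℤ) := by
    exact_mod_cast h2
  linarith

end Pool.Agent.Y97
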